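import Pool.Agent.H832.Tor.Defs

set_option autoImplicit false

namespace Pool.Agent.H832.Tor

open Pool.Agent.H832.Few (D dd de powHom rangeEquiv rangeEquiv_apply posw Conn)

/-- The element has a reduced expression. -/
def C1_good {m : ℕ} (w : U m) : Prop :=
  ∃ (l0 : Zc) (L : CW m), CRed L ∧ w = ev (uk m) ug l0 L

theorem C1_ev_cons {m : ℕ} {M : Type} [Group M] (κ : Cc →* M) (γ : Option (Fin m) → M)
    (o : Option (Fin m)) (ε : ℤˣ) (l l0 : Zc) (L : CW m) :
    ev κ γ l0 ((o, ε, l) :: L) =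
      κ (Multiplicative.ofAdd l0) * (γ o ^ (ε : ℤ) * ev κ γ l L) := by
  unfold ev
  rw [List.map_cons, List.prod_cons]
  simp only [mul_assoc]

theorem C1_k0 {M : Type} [Group M] (κ : Cc →* M) : κ (Multiplicative.ofAdd (0 : Zc)) = 1 := by
  rw [ofAdd_zero, map_one]

theorem C1_h {m : ℕ} (k : Zc) {w : U m} (hw : C1_good w) :
    C1_good (uk m (Multiplicative.ofAdd k) * w) := by
  obtain ⟨l0, L, hL, rfl⟩ := hw
  refine ⟨k + l0, L, hL, ?_⟩
  unfold ev
  rw [ofAdd_add, map_mul, mul_assoc]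

theorem C1_o {m : ℕ} (o : Option (Fin m)) (ε : ℤˣ) {w : U m}
    (hw : C1_good w) : C1_good (ug o ^ (ε : ℤ) * w) := by
  obtain ⟨l0, L, hL, rfl⟩ := hw
  rcases L with _ | ⟨⟨o', ε', l'⟩, L'⟩
  · refine ⟨0, [(o, ε, l0)], List.isChain_singleton _, ?_⟩
    rw [C1_ev_cons, C1_k0, one_mul]
  · by_cases hc : o = o' ∧ ε' = -ε ∧ l0 = 0
    · obtain ⟨rfl, rfl, rfl⟩ := hc
      refine ⟨l', L', List.IsChain.tail hL, ?_⟩
      rw [C1_ev_cons, C1_k0, one_mul, ← mul_assoc]
      rw [Units.val_neg, zpow_neg, mul_inv_cancel, one_mul]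
    · refine ⟨0, (o, ε, l0) :: (o', ε', l') :: L', ?_, ?_⟩
      · exact List.isChain_cons_cons.2 ⟨hc, hL⟩
      · rw [C1_ev_cons _ _ o, C1_k0, one_mul]

theorem C1_free {m : ℕ} (x : FreeGroup (Option (Fin m))) :
    ∀ w : U m, C1_good w → C1_good (Monoid.Coprod.inr x * w) := by
  induction x using FreeGroup.induction_on with
  | C1 =>
    intro w hw
    rw [map_one, one_mul]
    exact hw
  | of x =>
    intro w hw
    have := C1_o x 1 hw
    rwa [Units.val_one, zpow_one] at this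
  | inv_of x _ =>
    intro w hw
    have := C1_o x (-1) hw
    rw [Units.val_neg, Units.val_one, zpow_neg_one] at this
    rw [map_inv]
    exact this
  | mul x y hx hy =>
    intro w hw
    rw [map_mul, mul_assoc]
    exact hx _ (hy _ hw)

theorem C1_all {m : ℕ} (x : U m) : ∀ w : U m, C1_good w → C1_good (x * w) := by
  induction x using Monoid.Coprod.induction_on with
  | inl k =>
    intro w hw
    exact C1_h (Multiplicative.toAdd k) hw
  | inr x => exact C1_free x
  | mul x y hx hy =>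
    intro w hw
    rw [mul_assoc]
    exact hx _ (hy _ hw)

theorem exists_cred {m : ℕ} (w : U m) :
    ∃ (l0 : Zc) (L : CW m), CRed L ∧ w = ev (uk m) ug l0 L := by
  have h1 : C1_good (1 : U m) := ⟨0, [], List.isChain_nil, by simp [ev]⟩
  have h2 := C1_all w 1 h1
  rw [mul_one] at h2
  exact h2

end Pool.Agent.H832.Tor
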