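import Pool.Agent.H832.Tor.Defs

set_option autoImplicit false

namespace Pool.Agent.H832.Tor

open Pool.Agent.H832.Few (D dd de powHom rangeEquiv rangeEquiv_apply posw Conn)

variable {m p : ℕ} (h1 : Function.Injective (fA p)) (h2 : Function.Injective (fB p))

theorem C3_posw_cons {G : Type} [Group G] {A B : Subgroup G} (φ : A ≃* B) (g0 g : G) (l : List G) :
    posw φ g0 (g :: l) = HNNExtension.of g0 * HNNExtension.t * posw φ g l := by
  unfold posw
  rw [List.map_cons, List.prod_cons]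
  group

theorem C3_posw_mul {G : Type} [Group G] {A B : Subgroup G} (φ : A ≃* B) (g g0 : G) (l : List G) :
    posw φ (g * g0) l = HNNExtension.of g * posw φ g0 l := by
  unfold posw
  rw [map_mul, mul_assoc]

theorem C3_h (k : Zc) : gk h1 h2 (Multiplicative.ofAdd k) = gof h1 h2 (hk k) := rfl

theorem C3_z (z : D) (k : ℤ) : (gof h1 h2 (z, 1)) ^ k = gof h1 h2 (z ^ k, 1) := by
  rw [← map_zpow, Prod.pow_mk, one_zpow]

theorem C3_pos (ks : List Zc) : pos (ga h1 h2) (gk h1 h2) ks =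
    ((ks.map hk).map fun g => HNNExtension.t * HNNExtension.of g).prod := by
  unfold pos
  rw [List.map_map]
  rfl

theorem C3_posw_append (g0 g : B0) (ks : List Zc) (l : List B0) :
    posw (rangeEquiv (fA p) (fB p) h1 h2) g0 (ks.map hk ++ (g :: l)) =
      gof h1 h2 g0 * pos (ga h1 h2) (gk h1 h2) ks * ga h1 h2 *
        posw (rangeEquiv (fA p) (fB p) h1 h2) g l := by
  rw [C3_pos]
  unfold posw
  rw [List.map_append, List.prod_append, List.map_cons, List.prod_cons]
  group

theorem ev_expd (F : Fam m p) (l0 : Zc) (L : List (Option (Fin m) × Zc)) :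
    ev (gk h1 h2) (gens h1 h2 F) l0 (L.map fun x => (x.1, (1 : ℤˣ), x.2)) =
      posw (rangeEquiv (fA p) (fB p) h1 h2) (expd F l0 L).1 (expd F l0 L).2 := by
  induction L generalizing l0 with
  | nil =>
    show gof h1 h2 (hk l0) * 1 = gof h1 h2 (hk l0) * 1
    rfl
  | cons x L ih =>
    obtain ⟨o, l⟩ := x
    have key : ev (gk h1 h2) (gens h1 h2 F) l0
        (((o, l) :: L).map fun x => (x.1, (1 : ℤˣ), x.2)) =
        gof h1 h2 (hk l0) * gens h1 h2 F o *
          ev (gk h1 h2) (gens h1 h2 F) l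
            (L.map fun x => (x.1, (1 : ℤˣ), x.2)) := by
      unfold ev
      rw [List.map_cons, List.map_cons, List.prod_cons]
      show gof h1 h2 (hk l0) * (gens h1 h2 F o ^ ((1 : ℤˣ) : ℤ) *
        gof h1 h2 (hk l) * _) = gof h1 h2 (hk l0) * gens h1 h2 F o *
        (gof h1 h2 (hk l) * _)
      rw [Units.val_one, zpow_one, mul_assoc, mul_assoc]
    rw [key, ih]
    cases o with
    | none =>
      show gof h1 h2 (hk l0) * ga h1 h2 * _ =
        posw (rangeEquiv (fA p) (fB p) h1 h2) (hk l0) ((expd F l L).1 :: (expd F l L).2)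
      rw [C3_posw_cons]
    | some i =>
      show gof h1 h2 (hk l0) * ((gof h1 h2 (dd, 1)) ^ F.α i *
        pos (ga h1 h2) (gk h1 h2) (F.f i) * ga h1 h2 * (gof h1 h2 (de, 1)) ^ F.β i) * _ =
        posw (rangeEquiv (fA p) (fB p) h1 h2) (hk l0 * (dd ^ F.α i, 1))
          ((F.f i).map hk ++ (((de ^ F.β i, 1) * (expd F l L).1) :: (expd F l L).2))
      rw [C3_posw_append, C3_posw_mul, C3_z, C3_z, map_mul]
      group

theorem zexp_eq (z z' : D) (k0 : Zc) (ks : List Zc) :
    gof h1 h2 (z, 1) * gk h1 h2 (Multiplicative.ofAdd k0) * pos (ga h1 h2) (gk h1 h2) ks *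
      gof h1 h2 (z', 1) =
      posw (rangeEquiv (fA p) (fB p) h1 h2) ((z, 1) * (zexp z' k0 ks).1) (zexp z' k0 ks).2 := by
  induction ks generalizing z k0 with
  | nil =>
    show gof h1 h2 (z, 1) * gof h1 h2 (hk k0) * 1 * gof h1 h2 (z', 1) =
      gof h1 h2 ((z, 1) * (hk k0 * (z', 1))) * 1
    rw [map_mul, map_mul, mul_one, mul_one, mul_assoc]
  | cons k1 ks ih =>
    have h3 := ih 1 k1
    rw [Prod.mk_one_one, map_one, one_mul, one_mul, C3_h] at h3
    show gof h1 h2 (z, 1) * gof h1 h2 (hk k0) * (ga h1 h2 * gof h1 h2 (hk k1) *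
      pos (ga h1 h2) (gk h1 h2) ks) * gof h1 h2 (z', 1) =
      posw (rangeEquiv (fA p) (fB p) h1 h2) ((z, 1) * hk k0)
        ((zexp z' k1 ks).1 :: (zexp z' k1 ks).2)
    rw [C3_posw_cons, ← h3, map_mul]
    simp only [mul_assoc]

end Pool.Agent.H832.Tor
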