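import Pool.Agent.H832.Tor.C5
import Pool.Agent.H832.Few.D2

set_option autoImplicit false

namespace Pool.Agent.H832.Tor

open Pool.Agent.H832.Few (D dd de powHom rangeEquiv rangeEquiv_apply posw Conn conn_of_eq
  D2_X D2_Ch D2_nf1 D2_main)

variable {m p : ℕ} (h1 : Function.Injective (fA p)) (h2 : Function.Injective (fB p))
  (F F' : Fam m p) (h3 : Function.Injective (iota h1 h2 F'))
  (h4 : Function.Injective (iota h1 h2 F))

theorem D2_map_ev {M M' : Type} [Group M] [Group M'] (f : M →* M') (κ : Cc →* M)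
    (γ : Option (Fin m) → M) (l0 : Zc) (L : CW m) :
    f (ev κ γ l0 L) = ev (f.comp κ) (fun o => f (γ o)) l0 L := by
  unfold ev
  rw [map_mul, map_list_prod, List.map_map]
  congr 2
  apply List.map_congr_left
  intro x _
  simp

theorem D2_pos_append {M : Type} [Group M] (a : M) (κ : Cc →* M) (x y : List Zc) :
    pos a κ (x ++ y) = pos a κ x * pos a κ y := by
  simp [pos]

theorem D2_pos_cons {M : Type} [Group M] (a : M) (κ : Cc →* M) (k : Zc) (y : List Zc) :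
    pos a κ (k :: y) = a * κ (Multiplicative.ofAdd k) * pos a κ y := by
  simp [pos]

theorem D2_ev_none {M : Type} [Group M] (κ : Cc →* M) (γ : Option (Fin m) → M) (l0 : Zc)
    (ks : List Zc) :
    ev κ γ l0 ((ks.map fun k => ((none : Option (Fin m)), k)).map fun x => (x.1, (1 : ℤˣ), x.2)) =
      κ (Multiplicative.ofAdd l0) * pos (γ none) κ ks := by
  unfold ev pos
  rw [List.map_map, List.map_map]
  congr 2
  apply List.map_congr_left
  intro x _
  simp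

theorem D2_ev_some {M : Type} [Group M] (κ : Cc →* M) (γ : Option (Fin m) → M) (l0 : Zc)
    (L1 : List Zc) (i : Fin m) (l : Zc) (L2 : List Zc) :
    ev κ γ l0 (((L1.map fun k => ((none : Option (Fin m)), k)) ++
      (some i, l) :: (L2.map fun k => (none, k))).map fun x => (x.1, (1 : ℤˣ), x.2)) =
      κ (Multiplicative.ofAdd l0) * pos (γ none) κ L1 *
        (γ (some i) * κ (Multiplicative.ofAdd l)) * pos (γ none) κ L2 := by
  have h1 := D2_ev_none κ γ 0 L1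
  have h2 := D2_ev_none κ γ 0 L2
  unfold ev at h1 h2 ⊢
  simp only [ofAdd_zero, map_one, one_mul] at h1 h2
  rw [List.map_append, List.map_append, List.prod_append, h1, List.map_cons, List.map_cons,
    List.prod_cons, h2]
  simp [mul_assoc]

theorem D2_hd (u : D) (c : Cc) : gof h1 h2 (u, 1) * gk h1 h2 c =
    gk h1 h2 c * gof h1 h2 (u, 1) := by
  show gof h1 h2 (u, 1) * gof h1 h2 (1, c) = gof h1 h2 (1, c) * gof h1 h2 (u, 1)
  rw [← map_mul, ← map_mul]
  congr 1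
  ext <;> simp

theorem D2_ad : ga h1 h2 * gof h1 h2 (dd, 1) = gof h1 h2 (dd, 1) ^ p * ga h1 h2 := by
  have h := HNNExtension.t_mul_of (φ := rangeEquiv (fA p) (fB p) h1 h2) ⟨fA p dd, dd, rfl⟩
  rw [rangeEquiv_apply] at h
  have e1 : fA p dd = (dd, 1) := by simp [fA, powHom]
  have e2 : fB p dd = (dd ^ p, 1) := by simp [fB, powHom]
  rw [e2] at h
  simp only [e1] at h
  rw [← map_pow]
  refine h.trans ?_
  congr 2
  ext <;> simp

theorem D2_ea : gof h1 h2 (de, 1) * ga h1 h2 = ga h1 h2 * gof h1 h2 (de, 1) ^ p := by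
  have h := HNNExtension.t_mul_of (φ := rangeEquiv (fA p) (fB p) h1 h2) ⟨fA p de, de, rfl⟩
  rw [rangeEquiv_apply] at h
  have e1 : fA p de = (de ^ p, 1) := by simp [fA, powHom]
  have e2 : fB p de = (de, 1) := by simp [fB, powHom]
  rw [e2] at h
  simp only [e1] at h
  rw [← map_pow]
  refine h.symm.trans ?_
  congr 2
  ext <;> simp

theorem D2_dpow (α : ℤ) : gof h1 h2 (dd, 1) ^ α = gof h1 h2 (dd ^ α, 1) := by
  rw [← map_zpow]
  congr 1
  ext <;> simp

theorem D2_epow (α : ℤ) : gof h1 h2 (de, 1) ^ α = gof h1 h2 (de ^ α, 1) := by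
  rw [← map_zpow]
  congr 1
  ext <;> simp

theorem D2_pos_d (L : List Zc) : ∀ α : ℤ, ∃ α' : ℤ,
    pos (ga h1 h2) (gk h1 h2) L * gof h1 h2 (dd, 1) ^ α =
      gof h1 h2 (dd, 1) ^ α' * pos (ga h1 h2) (gk h1 h2) L := by
  induction L with
  | nil => intro α; exact ⟨α, by simp [pos]⟩
  | cons k L ih =>
    intro α
    obtain ⟨α', h'⟩ := ih α
    refine ⟨p * α', ?_⟩
    have hs : SemiconjBy (ga h1 h2) (gof h1 h2 (dd, 1) ^ α') ((gof h1 h2 (dd, 1) ^ p) ^ α') :=
      SemiconjBy.zpow_right (D2_ad h1 h2) α'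
    have hc : gk h1 h2 (Multiplicative.ofAdd k) * gof h1 h2 (dd, 1) ^ α' =
        gof h1 h2 (dd, 1) ^ α' * gk h1 h2 (Multiplicative.ofAdd k) := by
      rw [D2_dpow]
      exact (D2_hd h1 h2 (dd ^ α') _).symm
    rw [D2_pos_cons, mul_assoc, h', ← mul_assoc, mul_assoc (ga h1 h2), hc, ← mul_assoc (ga h1 h2),
      hs.eq, ← zpow_natCast (gof h1 h2 (dd, 1)) p, ← zpow_mul]
    simp only [mul_assoc]

theorem D2_pos_e (L : List Zc) : ∀ β : ℤ, ∃ β' : ℤ,
    gof h1 h2 (de, 1) ^ β * pos (ga h1 h2) (gk h1 h2) L =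
      pos (ga h1 h2) (gk h1 h2) L * gof h1 h2 (de, 1) ^ β' := by
  induction L with
  | nil => intro α; exact ⟨α, by simp [pos]⟩
  | cons k L ih =>
    intro β
    obtain ⟨β', h'⟩ := ih (p * β)
    refine ⟨β', ?_⟩
    have hs : SemiconjBy (ga h1 h2) ((gof h1 h2 (de, 1) ^ p) ^ β) (gof h1 h2 (de, 1) ^ β) :=
      SemiconjBy.zpow_right (D2_ea h1 h2).symm β
    have hc : gk h1 h2 (Multiplicative.ofAdd k) * gof h1 h2 (de, 1) ^ (p * β) =
        gof h1 h2 (de, 1) ^ (p * β) * gk h1 h2 (Multiplicative.ofAdd k) := by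
      rw [D2_epow]
      exact (D2_hd h1 h2 (de ^ (p * β)) _).symm
    rw [D2_pos_cons, ← mul_assoc, ← mul_assoc, ← hs.eq, ← zpow_natCast (gof h1 h2 (de, 1)) p,
      ← zpow_mul, mul_assoc (ga h1 h2), ← hc, mul_assoc, mul_assoc, mul_assoc, h']
    simp only [mul_assoc]

/-- the inclusion of `D` -/
noncomputable def D2_del : D →* G1 h1 h2 := (gof h1 h2).comp (MonoidHom.inl D Cc)

theorem D2_del_apply (z : D) : D2_del h1 h2 z = gof h1 h2 (z, 1) := rfl

/-- the middle part -/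
noncomputable def D2_mu (x : Zc × List Zc) : G1 h1 h2 :=
  gk h1 h2 (Multiplicative.ofAdd x.1) * pos (ga h1 h2) (gk h1 h2) x.2

theorem D2_iota_uk : (iota h1 h2 F).comp (uk m) = gk h1 h2 :=
  Monoid.Coprod.lift_comp_inl _ _

theorem D2_iota_ug (o : Option (Fin m)) : iota h1 h2 F (ug o) = gens h1 h2 F o := by
  unfold iota ug
  rw [Monoid.Coprod.lift_apply_inr, FreeGroup.lift_apply_of]

theorem D2_conv (hp : 2 ≤ p) (z z' : D) (x : Zc × List Zc) (w : U m)
    (h : D2_del h1 h2 z * D2_mu h1 h2 x * D2_del h1 h2 z' = iota h1 h2 F' w) :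
    ∃ (x' : Zc × List Zc) (u v : D), (x.1 = x'.1 ∧ (x.2 = x'.2 ∨ Rw F F' x'.2 x.2)) ∧
      iota h1 h2 F w = D2_del h1 h2 u * D2_mu h1 h2 x' * D2_del h1 h2 v := by
  obtain ⟨k0, ks⟩ := x
  rw [D2_mu, ← mul_assoc, D2_del_apply, D2_del_apply] at h
  obtain ⟨L, hw, hL⟩ := mem_range_iota h1 h2 hp F' z z' k0 ks w h
  have hi : iota h1 h2 F w = ev (gk h1 h2) (gam F (gof h1 h2 (dd, 1))
      (gof h1 h2 (de, 1)) (ga h1 h2) (gk h1 h2)) k0 (L.map fun x => (x.1, (1 : ℤˣ), x.2)) := by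
    rw [hw, D2_map_ev, D2_iota_uk]
    simp only [D2_iota_ug]
    rfl
  rcases hL with hL | ⟨L1, i, l, L2, hL, hks⟩
  · refine ⟨(k0, ks), 1, 1, ⟨rfl, Or.inl rfl⟩, ?_⟩
    rw [hi, hL, D2_ev_none, map_one, one_mul, mul_one]
    rfl
  · obtain ⟨α', hα'⟩ := D2_pos_d h1 h2 L1 (F.α i)
    obtain ⟨β', hβ'⟩ := D2_pos_e h1 h2 L2 (F.β i)
    have hc1 : gk h1 h2 (Multiplicative.ofAdd k0) * gof h1 h2 (dd, 1) ^ α' =
        gof h1 h2 (dd, 1) ^ α' * gk h1 h2 (Multiplicative.ofAdd k0) := by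
      rw [D2_dpow]
      exact (D2_hd h1 h2 (dd ^ α') _).symm
    have hc2 : gk h1 h2 (Multiplicative.ofAdd l) * gof h1 h2 (de, 1) ^ (F.β i) =
        gof h1 h2 (de, 1) ^ (F.β i) * gk h1 h2 (Multiplicative.ofAdd l) := by
      rw [D2_epow]
      exact (D2_hd h1 h2 (de ^ (F.β i)) _).symm
    refine ⟨(k0, L1 ++ F.f i ++ l :: L2), dd ^ α', de ^ β', ⟨rfl, Or.inr ⟨i, L1, l, L2, rfl, hks⟩⟩,
      ?_⟩
    have e1 : D2_del h1 h2 (dd ^ α') = gof h1 h2 (dd, 1) ^ α' := by rw [map_zpow]; rfl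
    have e2 : D2_del h1 h2 (de ^ β') = gof h1 h2 (de, 1) ^ β' := by rw [map_zpow]; rfl
    rw [hi, hL, D2_ev_some, e1, e2, D2_mu, D2_pos_append, D2_pos_append, D2_pos_cons]
    simp only [gam]
    generalize gk h1 h2 (Multiplicative.ofAdd k0) = H0 at *
    generalize gk h1 h2 (Multiplicative.ofAdd l) = Hl at *
    generalize gk h1 h2 = κ at *
    generalize gof h1 h2 (dd, 1) = dG at *
    generalize gof h1 h2 (de, 1) = eG at *
    generalize ga h1 h2 = a at *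
    calc H0 * pos a κ L1 * (dG ^ F.α i * pos a κ (F.f i) * a * eG ^ F.β i * Hl) * pos a κ L2
        = H0 * (pos a κ L1 * dG ^ F.α i) * pos a κ (F.f i) * a * (eG ^ F.β i * Hl) *
            pos a κ L2 := by simp only [mul_assoc]
      _ = (H0 * dG ^ α') * pos a κ L1 * pos a κ (F.f i) * a * Hl * (eG ^ F.β i *
            pos a κ L2) := by rw [hα', ← hc2]; simp only [mul_assoc]
      _ = dG ^ α' * (H0 * (pos a κ L1 * pos a κ (F.f i) * (a * Hl * pos a κ L2))) *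
            eG ^ β' := by rw [hβ', hc1]; simp only [mul_assoc]

theorem D2_one (hp : 2 ≤ p) (z : D) (h : D2_del h1 h2 z ∈ (iota h1 h2 F).range) : z = 1 := by
  obtain ⟨w, hw⟩ := h
  obtain ⟨L, hw', hL⟩ := mem_range_iota h1 h2 hp F z 1 0 [] w (by
    have e0 : gof h1 h2 ((1 : D), (1 : Cc)) = 1 := map_one _
    rw [hw, D2_del_apply, e0, ofAdd_zero, map_one]
    simp [pos])
  have hL0 : L = [] := by
    rcases hL with hL | ⟨L1, i, l, L2, hL, hks⟩
    · simpa using hL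
    · simp at hks
  subst hL0
  have hw1 : w = 1 := by
    rw [hw']
    simp [ev]
  rw [hw1, map_one] at hw
  have h5 : ((z, 1) : B0) = 1 := HNNExtension.of_injective _ (by
    rw [map_one]
    exact hw.symm)
  exact congrArg Prod.fst h5

theorem D2_conn_snd (g0 : B0) (l : List B0) : ∀ (g0' : B0) (l' : List B0),
    Conn (rangeEquiv (fA p) (fB p) h1 h2) g0 l g0' l' →
      (g0 :: l).map Prod.snd = (g0' :: l').map Prod.snd := by
  induction l generalizing g0 with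
  | nil =>
    intro g0' l' h
    cases l' with
    | nil => simp only [Conn] at h; rw [h]
    | cons b l' => exact h.elim
  | cons b l ih =>
    intro g0' l' h
    cases l' with
    | nil => exact h.elim
    | cons b' l' =>
      obtain ⟨s, hs, hc⟩ := h
      have h5 := ih _ _ _ hc
      obtain ⟨w, hw⟩ := s.2
      obtain ⟨w', hw'⟩ := (rangeEquiv (fA p) (fB p) h1 h2 s).2
      have e1 : (s : B0).2 = 1 := by rw [← hw]; rfl
      have e2 : (rangeEquiv (fA p) (fB p) h1 h2 s : B0).2 = 1 := by rw [← hw']; rfl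
      simp only [List.map_cons, Prod.snd_mul, e1, one_mul] at h5 ⊢
      rw [h5, hs, Prod.snd_mul, e2, mul_one]

theorem D2_zexp_snd (z z' : D) (k : Zc) (ks : List Zc) :
    (((z, 1) * (zexp z' k ks).1) :: (zexp z' k ks).2).map Prod.snd =
      (k :: ks).map Multiplicative.ofAdd := by
  induction ks generalizing k z with
  | nil => simp [zexp]
  | cons k1 ks ih =>
    have := ih 1 k1
    simp only [List.map_cons, Prod.snd_mul, one_mul] at this
    simp only [zexp, List.map_cons, Prod.snd_mul, one_mul, this]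

theorem D2_base (x y : Zc × List Zc) (u v : D)
    (h : D2_mu h1 h2 x = D2_del h1 h2 u * D2_mu h1 h2 y * D2_del h1 h2 v) : x = y := by
  obtain ⟨k0, ks⟩ := x
  obtain ⟨l0, ls⟩ := y
  have e1 := zexp_eq h1 h2 1 1 k0 ks
  have e2 := zexp_eq h1 h2 u v l0 ls
  have e3 : posw (rangeEquiv (fA p) (fB p) h1 h2) ((1, 1) * (zexp 1 k0 ks).1) (zexp 1 k0 ks).2 =
      posw (rangeEquiv (fA p) (fB p) h1 h2) ((u, 1) * (zexp v l0 ls).1) (zexp v l0 ls).2 := by
    rw [← e1, ← e2]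
    have : gof h1 h2 ((1 : D), (1 : Cc)) = 1 := map_one _
    rw [this, one_mul, mul_one]
    rw [D2_mu, D2_mu, D2_del_apply, D2_del_apply] at h
    rw [h]
    simp only [mul_assoc]
  have e4 := D2_conn_snd h1 h2 _ _ _ _ (conn_of_eq _ _ _ _ _ e3)
  rw [D2_zexp_snd, D2_zexp_snd] at e4
  have e5 := List.map_injective_iff.2 Multiplicative.ofAdd.injective e4
  simp only [List.cons.injEq] at e5
  rw [Prod.mk.injEq]
  exact e5

theorem sound (hp : 2 ≤ p) (x y : FreeGroup (Option (Fin 2))) (k0 : Zc) (ks : List Zc) (l0 : Zc)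
    (ls : List Zc)
    (h : pw h1 h2 F F' h3 h4 k0 ks =
      cdeHom h1 h2 F F' h3 h4 x * pw h1 h2 F F' h3 h4 l0 ls * cdeHom h1 h2 F F' h3 h4 y) :
    k0 = l0 ∧ Relation.EqvGen (Rw F F') ks ls := by
  have hf0 : cdeHom h1 h2 F F' h3 h4 (FreeGroup.of none) = HNNExtension.t := by
    simp only [cdeHom, FreeGroup.lift_apply_of]
    rfl
  have hf1 : ∀ i, ∃ u, cdeHom h1 h2 F F' h3 h4 (FreeGroup.of (some i)) =
      HNNExtension.of (D2_del h1 h2 u) := by
    intro i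
    refine ⟨FreeGroup.of i, ?_⟩
    simp only [cdeHom, FreeGroup.lift_apply_of]
    rfl
  obtain ⟨zx, lx, hlx, hx⟩ := D2_nf1 _ (D2_del h1 h2) (cdeHom h1 h2 F F' h3 h4) hf0 hf1 x
  obtain ⟨zy, ly, hly, hy⟩ := D2_nf1 _ (D2_del h1 h2) (cdeHom h1 h2 F F' h3 h4) hf0 hf1 y
  obtain ⟨m', u, v, hR, hg⟩ := D2_main (rangeEquiv (iota h1 h2 F') (iota h1 h2 F) h3 h4)
    (D2_del h1 h2) (D2_mu h1 h2)
    (fun a b => a.1 = b.1 ∧ Relation.EqvGen (Rw F F') a.2 b.2)
    (fun a => ⟨rfl, Relation.EqvGen.refl _⟩)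
    (fun a b c hab hbc => ⟨hab.1.trans hbc.1, Relation.EqvGen.trans _ _ _ hab.2 hbc.2⟩)
    (D2_one h1 h2 F' hp) (D2_one h1 h2 F hp)
    (by
      rintro z z' a ⟨_, w, rfl⟩ he
      rw [rangeEquiv_apply]
      obtain ⟨x', u, v, ⟨h5, h6⟩, h7⟩ := D2_conv h1 h2 F F' hp z z' a w he
      refine ⟨x', u, v, ⟨h5, ?_⟩, h7⟩
      rcases h6 with h6 | h6
      · rw [h6]; exact Relation.EqvGen.refl _
      · exact Relation.EqvGen.symm _ _ (Relation.EqvGen.rel _ _ h6))
    (by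
      rintro z z' a ⟨_, w, rfl⟩ he
      have e5 : ((rangeEquiv (iota h1 h2 F') (iota h1 h2 F) h3 h4).symm
          ⟨iota h1 h2 F w, w, rfl⟩ : G1 h1 h2) = iota h1 h2 F' w := by
        have e6 : (⟨iota h1 h2 F w, w, rfl⟩ : (iota h1 h2 F).range) =
            rangeEquiv (iota h1 h2 F') (iota h1 h2 F) h3 h4 ⟨iota h1 h2 F' w, w, rfl⟩ := by
          apply Subtype.ext
          rw [rangeEquiv_apply]
        rw [e6, MulEquiv.symm_apply_apply]
      rw [e5]
      obtain ⟨x', u, v, ⟨h5, h6⟩, h7⟩ := D2_conv h1 h2 F' F hp z z' a w he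
      refine ⟨x', u, v, ⟨h5, ?_⟩, h7⟩
      rcases h6 with h6 | ⟨i, xs, y, ys, h8, h9⟩
      · rw [h6]; exact Relation.EqvGen.refl _
      · exact Relation.EqvGen.rel _ _ ⟨i, xs, y, ys, h9, h8⟩)
    (D2_mu h1 h2 (k0, ks)) lx.length zx lx zy ly (l0, ls) rfl hlx hly (by
      rw [← hx, ← hy]
      exact h.symm)
  have hb := D2_base h1 h2 _ _ _ _ hg
  subst hb
  exact ⟨hR.1.symm, Relation.EqvGen.symm _ _ hR.2⟩

end Pool.Agent.H832.Tor
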