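import Pool.Agent.H832.Few.A
import Pool.Agent.H832.Few.B
import Mathlib.GroupTheory.Coprod.Basic

set_option autoImplicit false

/-!
# The tower of HNN extensions, with an element `h` of order `6`
-/

noncomputable section

namespace Pool.Agent.H832.Tor

open Pool.Agent.H832.Few (D dd de powHom rangeEquiv rangeEquiv_apply posw Conn)

/-- The exponents of `h`. -/
abbrev Zc : Type := ZMod 6

/-- The cyclic group of `h`. -/
abbrev Cc : Type := Multiplicative Zc

/-- The base group. -/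
abbrev B0 : Type := D × Cc

/-- The element `h ^ k`. -/
abbrev hk (k : Zc) : B0 := (1, Multiplicative.ofAdd k)

/-- The product of the `a * κ k`. -/
def pos {M : Type} [Group M] (a : M) (κ : Cc →* M) (ks : List Zc) : M :=
  (ks.map fun k => a * κ (Multiplicative.ofAdd k)).prod

/-- `d ↦ d`, `e ↦ e ^ p`. -/
def fA (p : ℕ) : D →* B0 := (MonoidHom.inl D Cc).comp (powHom 1 p)

/-- `d ↦ d ^ p`, `e ↦ e`. -/
def fB (p : ℕ) : D →* B0 := (MonoidHom.inl D Cc).comp (powHom p 1)

/-- Words in `h`, `a` and `g_i`: the list entry `(none, s, l)` stands for `a ^ s * h ^ l` and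
`(some i, s, l)` for `g_i ^ s * h ^ l`. -/
abbrev CW (m : ℕ) : Type := List (Option (Fin m) × ℤˣ × Zc)

/-- No cancellations. -/
def CRed {m : ℕ} (L : CW m) : Prop :=
  L.IsChain fun x y => ¬ (x.1 = y.1 ∧ y.2.1 = - x.2.1 ∧ x.2.2 = 0)

/-- The value of a word. -/
def ev {m : ℕ} {M : Type} [Group M] (κ : Cc →* M) (γ : Option (Fin m) → M) (l0 : Zc)
    (L : CW m) : M :=
  κ (Multiplicative.ofAdd l0) *
    (L.map fun x => γ x.1 ^ (x.2.1 : ℤ) * κ (Multiplicative.ofAdd x.2.2)).prod

/-- The data of a family `g_i = d ^ α_i * (∏_{k ∈ f_i} a h ^ k) * a * e ^ β_i`. -/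
structure Fam (m p : ℕ) where
  /-- exponents of `d` -/
  α : Fin m → ℤ
  /-- exponents of `e` -/
  β : Fin m → ℤ
  /-- interior exponents of `h` -/
  f : Fin m → List Zc
  hα : ∀ i, ¬ (p : ℤ) ∣ α i
  hβ : ∀ i, ¬ (p : ℤ) ∣ β i
  hαα : ∀ i j, i ≠ j → ¬ (p : ℤ) ∣ α i - α j
  hββ : ∀ i j, i ≠ j → ¬ (p : ℤ) ∣ β i - β j

/-- The element `g_i` (for `some i`) or `a` (for `none`). -/
def gam {m p : ℕ} (F : Fam m p) {M : Type} [Group M] (d e a : M) (κ : Cc →* M) :
    Option (Fin m) → M
  | none => a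
  | some i => d ^ F.α i * pos a κ (F.f i) * a * e ^ F.β i

/-- The expansion of a positive word in `h, a, g_i` as a positive word of the HNN extension. -/
def expd {m p : ℕ} (F : Fam m p) : Zc → List (Option (Fin m) × Zc) → B0 × List B0
  | l0, [] => (hk l0, [])
  | l0, (none, l) :: L => (hk l0, (expd F l L).1 :: (expd F l L).2)
  | l0, (some i, l) :: L => (hk l0 * (dd ^ F.α i, 1),
      (F.f i).map hk ++ (((de ^ F.β i, 1) * (expd F l L).1) :: (expd F l L).2))

/-- The expansion of `h ^ k0 * pos ks * z'`. -/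
def zexp (z' : D) : Zc → List Zc → B0 × List B0
  | k, [] => (hk k * (z', 1), [])
  | k, k1 :: ks => (hk k, (zexp z' k1 ks).1 :: (zexp z' k1 ks).2)

/-- The group with the generators `h`, `a`, `g_i`. -/
abbrev U (m : ℕ) : Type := Monoid.Coprod Cc (FreeGroup (Option (Fin m)))

/-- The powers of `h` in `U`. -/
def uk (m : ℕ) : Cc →* U m := Monoid.Coprod.inl

/-- The generators `a` and `g_i` of `U`. -/
def ug {m : ℕ} (o : Option (Fin m)) : U m := Monoid.Coprod.inr (FreeGroup.of o)

section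

variable {m p : ℕ} (h1 : Function.Injective (fA p)) (h2 : Function.Injective (fB p))

/-- The first HNN extension. -/
abbrev G1 : Type := HNNExtension B0 (fA p).range (fB p).range (rangeEquiv (fA p) (fB p) h1 h2)

/-- The element `a`. -/
abbrev ga : G1 h1 h2 := HNNExtension.t

/-- The inclusion of the base group. -/
abbrev gof : B0 →* G1 h1 h2 := HNNExtension.of

/-- The powers of `h`. -/
abbrev gk : Cc →* G1 h1 h2 := (gof h1 h2).comp (MonoidHom.inr D Cc)

/-- The generators `a`, `g_i`. -/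
def gens (F : Fam m p) : Option (Fin m) → G1 h1 h2 :=
  gam F (gof h1 h2 (dd, 1)) (gof h1 h2 (de, 1)) (ga h1 h2) (gk h1 h2)

/-- The homomorphism from `U`. -/
def iota (F : Fam m p) : U m →* G1 h1 h2 :=
  Monoid.Coprod.lift (gk h1 h2) (FreeGroup.lift (gens h1 h2 F))

variable (F F' : Fam m p) (h3 : Function.Injective (iota h1 h2 F'))
  (h4 : Function.Injective (iota h1 h2 F))

/-- The second HNN extension, with `c * g_i' * c⁻¹ = g_i`, where `g_i` belongs to `F` and `g_i'`
to `F'`. -/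
abbrev G2 : Type := HNNExtension (G1 h1 h2) (iota h1 h2 F').range (iota h1 h2 F).range
  (rangeEquiv (iota h1 h2 F') (iota h1 h2 F) h3 h4)

/-- The inclusion of `G1`. -/
abbrev g2of : G1 h1 h2 →* G2 h1 h2 F F' h3 h4 := HNNExtension.of

/-- The element `c`. -/
abbrev gc : G2 h1 h2 F F' h3 h4 := HNNExtension.t

/-- The powers of `h`. -/
abbrev gh : Cc →* G2 h1 h2 F F' h3 h4 := (g2of h1 h2 F F' h3 h4).comp (gk h1 h2)

/-- The generators `c, d, e`. -/
def cde : Option (Fin 2) → G2 h1 h2 F F' h3 h4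
  | none => gc h1 h2 F F' h3 h4
  | some i => g2of h1 h2 F F' h3 h4 (gof h1 h2 (FreeGroup.of i, 1))

/-- The homomorphism from the free group of rank three. -/
def cdeHom : FreeGroup (Option (Fin 2)) →* G2 h1 h2 F F' h3 h4 :=
  FreeGroup.lift (cde h1 h2 F F' h3 h4)

/-- The rewriting of lists of exponents. -/
def Rw (F F' : Fam m p) (u v : List Zc) : Prop :=
  ∃ (i : Fin m) (xs : List Zc) (y : Zc) (ys : List Zc),
    u = xs ++ F.f i ++ y :: ys ∧ v = xs ++ F'.f i ++ y :: ys

/-- Positive words in `a, h`, in the group `G2`. -/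
def pw (k0 : Zc) (ks : List Zc) : G2 h1 h2 F F' h3 h4 :=
  g2of h1 h2 F F' h3 h4 (gk h1 h2 (Multiplicative.ofAdd k0) * pos (ga h1 h2) (gk h1 h2) ks)

end

end Pool.Agent.H832.Tor
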