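import Pool.Agent.H832.Tor.Defs
import Pool.Agent.H832.Few.E

set_option autoImplicit false

namespace Pool.Agent.H832.Tor

open Pool.Agent.H832.Few (hh kgen)
open Pool.Agent.H832.Few (E_Om E_X E_Y E_braid E_hh E_pp)

/-- the inclusion of the cyclic group of order `6` in the one of order `36` -/
def E6_phi : ZMod 6 →+ ZMod 36 where
  toFun k := 6 * ((k.val : ℕ) : ZMod 36)
  map_zero' := by decide
  map_add' := by decide

theorem E6_phi_one : E6_phi 1 = 6 := by decide

theorem E6_phi_inj : ∀ k : ZMod 6, E6_phi k = 0 → k = 0 := by decide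

/-- the large group -/
abbrev E6_K : Type := Equiv.Perm E_Om × Multiplicative (ZMod 36)

/-- the first generator -/
noncomputable abbrev E6_x : E6_K := (E_X, Multiplicative.ofAdd 1)

/-- the second generator -/
noncomputable abbrev E6_y : E6_K := (E_Y, Multiplicative.ofAdd 1)

theorem E6_hh : hh E6_x E6_y = (1, Multiplicative.ofAdd 6) := Prod.ext E_hh rfl

theorem exists_K6 (m : ℕ) (hm : 1 ≤ m) : ∃ (K : Type) (_ : Group K) (x y : K) (κ : Cc →* K),
    x * y * x = y * x * y ∧ κ (Multiplicative.ofAdd 1) = hh x y ∧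
    ∀ (w : FreeGroup (Option (Fin 2))) (k : Cc),
      FreeGroup.lift (kgen m x y) w * κ k = 1 → w = 1 ∧ k = 1 := by
  refine ⟨E6_K, inferInstance, E6_x, E6_y,
    (MonoidHom.inr (Equiv.Perm E_Om) (Multiplicative (ZMod 36))).comp
      (AddMonoidHom.toMultiplicative E6_phi), ?_, ?_, ?_⟩
  · exact Prod.ext E_braid rfl
  · rw [E6_hh]
    refine Prod.ext rfl ?_
    exact congrArg Multiplicative.ofAdd E6_phi_one
  · intro w k h
    have h1 : ∀ w : FreeGroup (Option (Fin 2)),
        (FreeGroup.lift (kgen m E6_x E6_y) w).1 = FreeGroup.lift (kgen m E_X E_Y) w := by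
      intro w
      have h2 : (MonoidHom.fst (Equiv.Perm E_Om) (Multiplicative (ZMod 36))).comp
          (FreeGroup.lift (kgen m E6_x E6_y)) =
          FreeGroup.lift (kgen m E_X E_Y) := by
        apply FreeGroup.ext_hom
        intro i
        rw [MonoidHom.comp_apply, FreeGroup.lift_apply_of, FreeGroup.lift_apply_of]
        rcases i with _ | i
        · rfl
        · fin_cases i <;> rfl
      exact DFunLike.congr_fun h2 w
    have h3 := congrArg Prod.fst h
    have h5 : w = 1 := by
      apply E_pp m hm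
      rw [map_one, ← h1]
      rw [Prod.fst_mul] at h3
      have h6 : (((MonoidHom.inr (Equiv.Perm E_Om) (Multiplicative (ZMod 36))).comp
        (AddMonoidHom.toMultiplicative E6_phi)) k).1 = 1 := rfl
      rw [h6, mul_one] at h3
      exact h3
    refine ⟨h5, ?_⟩
    rw [h5, map_one, one_mul] at h
    have h6 : AddMonoidHom.toMultiplicative E6_phi k = 1 := congrArg Prod.snd h
    have h7 : E6_phi (Multiplicative.toAdd k) = 0 := h6
    exact E6_phi_inj _ h7

end Pool.Agent.H832.Tor
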