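import Mathlib

set_option autoImplicit false

namespace Pool.Agent.H832.Tor

/-- a 5-cycle -/
def H6_s : Equiv.Perm (Fin 5) where
  toFun := fun i => i + 1
  invFun := fun i => i - 1
  left_inv := by decide
  right_inv := by decide

/-- a second 5-cycle -/
def H6_t : Equiv.Perm (Fin 5) where
  toFun := fun i => match i with
    | 0 => 2
    | 2 => 1
    | 1 => 3
    | 3 => 4
    | 4 => 0
  invFun := fun i => match i with
    | 2 => 0
    | 1 => 2
    | 3 => 1
    | 4 => 3
    | 0 => 4
  left_inv := by decide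
  right_inv := by decide

theorem H6_s5 : H6_s ^ 5 = 1 := by decide

theorem H6_t5 : H6_t ^ 5 = 1 := by decide

theorem H6_st : H6_s * H6_t ≠ H6_t * H6_s := by decide

theorem exists_fibre {G : Type} [Group G] (K : Subgroup G) (χ : G →* Multiplicative (ZMod 4))
    (hK : ∀ k ∈ K, χ k = 1) (P R : G) (hP : χ P = Multiplicative.ofAdd 1)
    (hR : χ R = Multiplicative.ofAdd 1) (hPR : ∀ k ∈ K, ∀ l ∈ K, R ≠ k * P * l) :
    ∃ f : G → Equiv.Perm (Fin 5), (∀ k ∈ K, ∀ v, f (k * v) = f v) ∧ (∀ v, f v ^ 5 = 1) ∧
      (∀ v, f v * f (P * v) = f (P * v) * f v) ∧ f 1 * f R ≠ f R * f 1 := by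
  classical
  have hRK : R ∉ K := by
    intro h
    rw [hK R h] at hR
    exact absurd hR (by decide)
  refine ⟨fun v => if v ∈ K then H6_s else if ∃ k ∈ K, v = k * R then H6_t else 1,
    ?_, ?_, ?_, ?_⟩
  · intro k hk v
    have h1 : k * v ∈ K ↔ v ∈ K := Subgroup.mul_mem_cancel_left K hk
    have h2 : (∃ k' ∈ K, k * v = k' * R) ↔ ∃ k' ∈ K, v = k' * R := by
      constructor
      · rintro ⟨k', hk', h⟩
        refine ⟨k⁻¹ * k', K.mul_mem (K.inv_mem hk) hk', ?_⟩
        rw [mul_assoc, ← h, inv_mul_cancel_left]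
      · rintro ⟨k', hk', h⟩
        exact ⟨k * k', K.mul_mem hk hk', by rw [h, mul_assoc]⟩
    simp only [h1, h2]
  · intro v
    simp only
    split_ifs
    · exact H6_s5
    · exact H6_t5
    · exact one_pow 5
  · intro v
    simp only
    by_cases h1 : v ∈ K
    · rw [if_pos h1]
      by_cases h2 : P * v ∈ K
      · rw [if_pos h2]
      · rw [if_neg h2]
        by_cases h3 : ∃ k ∈ K, P * v = k * R
        · exfalso
          obtain ⟨k, hk, h3⟩ := h3
          refine hPR k⁻¹ (K.inv_mem hk) v h1 ?_
          rw [mul_assoc, h3, inv_mul_cancel_left]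
        · rw [if_neg h3, mul_one, one_mul]
    · rw [if_neg h1]
      by_cases h4 : ∃ k ∈ K, v = k * R
      · rw [if_pos h4]
        by_cases h2 : P * v ∈ K
        · exfalso
          obtain ⟨k, hk, h4⟩ := h4
          have h5 := hK _ h2
          rw [map_mul, h4, map_mul, hK k hk, one_mul, hP, hR] at h5
          exact absurd h5 (by decide)
        · rw [if_neg h2]
          by_cases h3 : ∃ k ∈ K, P * v = k * R
          · rw [if_pos h3]
          · rw [if_neg h3, mul_one, one_mul]
      · rw [if_neg h4, mul_one, one_mul]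
  · simp only
    rw [if_pos K.one_mem, if_neg hRK, if_pos ⟨1, K.one_mem, (one_mul R).symm⟩]
    exact H6_st

theorem exists_gauge {G E : Type} [Group G] [Group E] (ι : E →* G)
    (hι : Function.Injective ι) (lam : E →* Multiplicative ℤ) :
    ∃ n : G → ℤ, ∀ (u : E) (v : G), n (ι u * v) = Multiplicative.toAdd (lam u) + n v := by
  classical
  have h1 : ∀ v : G, ∃ u : E,
      ι u = v * (Quotient.mk (QuotientGroup.rightRel ι.range) v).out⁻¹ := by
    intro v
    have h : (QuotientGroup.rightRel ι.range) (Quotient.mk (QuotientGroup.rightRel ι.range) v).out v :=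
      Quotient.mk_out (s := QuotientGroup.rightRel ι.range) v
    rw [QuotientGroup.rightRel_apply] at h
    exact h
  choose w hw using h1
  refine ⟨fun v => Multiplicative.toAdd (lam (w v)), fun u v => ?_⟩
  have hq : Quotient.mk (QuotientGroup.rightRel ι.range) (ι u * v) =
      Quotient.mk (QuotientGroup.rightRel ι.range) v := by
    refine Quotient.sound (s := QuotientGroup.rightRel ι.range) ?_
    change (QuotientGroup.rightRel ι.range) (ι u * v) v
    rw [QuotientGroup.rightRel_apply]
    refine ⟨u⁻¹, ?_⟩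
    rw [map_inv, mul_inv_rev, mul_inv_cancel_left]
  have h2 : w (ι u * v) = u * w v := hι (by rw [hw, hq, map_mul, hw, mul_assoc])
  change Multiplicative.toAdd (lam (w (ι u * v))) = _ + Multiplicative.toAdd (lam (w v))
  rw [h2, map_mul, toAdd_mul]

end Pool.Agent.H832.Tor
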