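import Pool.Agent.H832.Tor.Rel
import Pool.Agent.H832.Few.J1
import Pool.Agent.H832.Few.J2

set_option autoImplicit false

namespace Pool.Agent.H832.Tor

open Pool.Agent.H832.Few (fl hh cc ee pos ThueEq Step J1_central J1_cc J1_ee J1_pos_append J1_pos_d
  J1_pos_e J1_pos_c J1_Ya J2_pos_one J2_fl_sum)

theorem J6_step {q m : ℕ} {T : Fin m → List Bool × List Bool} {w0 : List Bool} {M : Type}
    [Group M] {a x y : M} (h : Rel6 q T w0 a x y) {u v : List Bool} (huv : Step T u v) :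
    ∃ X ∈ Subgroup.closure {cc q x y, x}, ∃ Y ∈ Subgroup.closure {cc q x y, ee x y},
      pos a (et x y) (fl u) = X * pos a (et x y) (fl v) * Y := by
  obtain ⟨i, x0, y0, rfl, rfl⟩ := huv
  obtain ⟨hcx0, hcy0⟩ := J1_central h.braid
  have hcx : Commute (et x y) x := hcx0.pow_left 25
  have hcy : Commute (et x y) y := hcy0.pow_left 25
  have hcc := J1_cc q hcx hcy
  have hce := J1_ee hcx hcy
  have hfl : ∀ p q r : List Bool, fl (p ++ q ++ r) = fl p ++ fl q ++ fl r := by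
    intro p q r
    simp only [fl, List.flatMap_append]
  rw [hfl, hfl, J1_pos_append, J1_pos_append, J1_pos_append, J1_pos_append]
  obtain ⟨j1, hj1⟩ := J1_pos_d hcx h.ad (fl x0) (-(((i : ℕ) + 1 : ℕ) : ℤ))
  obtain ⟨j2, hj2⟩ := J1_pos_d hcx h.ad (fl x0) ((((i : ℕ) + 1 + (m + 1) : ℕ)) : ℤ)
  obtain ⟨k1, hk1⟩ := J1_pos_e hce h.ea (fl y0) ((((i : ℕ) + 1 : ℕ)) : ℤ)
  obtain ⟨k2, hk2⟩ := J1_pos_e hce h.ea (fl y0) (-(((i : ℕ) + 1 : ℕ) : ℤ))
  have hpc := J1_pos_c hcc h.ac (fl x0)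
  have hpc' : (cc q x y)⁻¹ * pos a (et x y) (fl y0) = pos a (et x y) (fl y0) * (cc q x y)⁻¹ := by
    have := J1_pos_c hcc h.ac (fl y0)
    rw [inv_mul_eq_iff_eq_mul, ← mul_assoc, ← this, mul_inv_cancel_right]
  have hrule := h.rule i
  have hlhs : pos a (et x y) (fl (T i).1) = x ^ (-(((i : ℕ) + 1 : ℕ) : ℤ)) * cc q x y *
      x ^ ((((i : ℕ) + 1 + (m + 1) : ℕ)) : ℤ) * pos a (et x y) (fl (T i).2) *
      ee x y ^ ((((i : ℕ) + 1 : ℕ)) : ℤ) * (cc q x y)⁻¹ * ee x y ^ (-(((i : ℕ) + 1 : ℕ) : ℤ)) := by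
    rw [zpow_neg, zpow_neg, zpow_natCast, zpow_natCast, zpow_natCast]
    have e1 : cc q x y * ((cc q x y)⁻¹ *
      (x ^ ((i : ℕ) + 1) * pos a (et x y) (fl (T i).1) * ee x y ^ ((i : ℕ) + 1)) * cc q x y) *
        (cc q x y)⁻¹ = x ^ ((i : ℕ) + 1) * pos a (et x y) (fl (T i).1) * ee x y ^ ((i : ℕ) + 1) := by
      group
    rw [hrule] at e1
    have e2 : (x ^ ((i : ℕ) + 1))⁻¹ * (x ^ ((i : ℕ) + 1) * pos a (et x y) (fl (T i).1) *
        ee x y ^ ((i : ℕ) + 1)) * (ee x y ^ ((i : ℕ) + 1))⁻¹ = pos a (et x y) (fl (T i).1) := by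
      group
    rw [← e1] at e2
    rw [← e2]
    simp only [mul_assoc]
  refine ⟨x ^ j1 * cc q x y * x ^ j2, ?_, ee x y ^ k1 * (cc q x y)⁻¹ * ee x y ^ k2, ?_, ?_⟩
  · have hx : x ∈ Subgroup.closure {cc q x y, x} := Subgroup.subset_closure (by simp)
    have hc : cc q x y ∈ Subgroup.closure {cc q x y, x} := Subgroup.subset_closure (by simp)
    exact mul_mem (mul_mem (zpow_mem hx _) hc) (zpow_mem hx _)
  · have he : ee x y ∈ Subgroup.closure {cc q x y, ee x y} := Subgroup.subset_closure (by simp)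
    have hc : cc q x y ∈ Subgroup.closure {cc q x y, ee x y} := Subgroup.subset_closure (by simp)
    exact mul_mem (mul_mem (zpow_mem he _) (inv_mem hc)) (zpow_mem he _)
  · rw [hlhs]
    generalize x ^ (-(((i : ℕ) + 1 : ℕ) : ℤ)) = X1 at *
    generalize x ^ ((((i : ℕ) + 1 + (m + 1) : ℕ)) : ℤ) = X2 at *
    generalize ee x y ^ ((((i : ℕ) + 1 : ℕ)) : ℤ) = E1 at *
    generalize ee x y ^ (-(((i : ℕ) + 1 : ℕ) : ℤ)) = E2 at *
    generalize pos a (et x y) (fl x0) = A at *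
    generalize pos a (et x y) (fl y0) = B at *
    generalize pos a (et x y) (fl (T i).2) = C at *
    generalize cc q x y = c at *
    generalize x ^ j1 = D1 at *
    generalize x ^ j2 = D2 at *
    generalize ee x y ^ k1 = K1 at *
    generalize ee x y ^ k2 = K2 at *
    calc A * (X1 * c * X2 * C * E1 * c⁻¹ * E2) * B
        = (A * X1) * c * X2 * C * E1 * c⁻¹ * (E2 * B) := by simp only [mul_assoc]
      _ = (D1 * A) * c * X2 * C * E1 * c⁻¹ * (B * K2) := by rw [hj1, hk2]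
      _ = D1 * (A * c) * X2 * C * E1 * (c⁻¹ * B) * K2 := by simp only [mul_assoc]
      _ = D1 * (c * A) * X2 * C * E1 * (B * c⁻¹) * K2 := by rw [hpc, hpc']
      _ = D1 * c * (A * X2) * C * (E1 * B) * c⁻¹ * K2 := by simp only [mul_assoc]
      _ = D1 * c * (D2 * A) * C * (B * K1) * c⁻¹ * K2 := by rw [hj2, hk1]
      _ = D1 * c * D2 * (A * C * B) * (K1 * c⁻¹ * K2) := by simp only [mul_assoc]

theorem J6_eqv {q m : ℕ} {T : Fin m → List Bool × List Bool} {w0 : List Bool} {M : Type}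
    [Group M] {a x y : M} (h : Rel6 q T w0 a x y) {u v : List Bool} (huv : ThueEq T u v) :
    ∃ X ∈ Subgroup.closure {cc q x y, x}, ∃ Y ∈ Subgroup.closure {cc q x y, ee x y},
      pos a (et x y) (fl u) = X * pos a (et x y) (fl v) * Y := by
  induction huv with
  | rel u v huv => exact J6_step h huv
  | refl u => exact ⟨1, one_mem _, 1, one_mem _, by rw [one_mul, mul_one]⟩
  | symm u v _ ih =>
    obtain ⟨X, hX, Y, hY, he⟩ := ih
    refine ⟨X⁻¹, inv_mem hX, Y⁻¹, inv_mem hY, ?_⟩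
    rw [he]
    group
  | trans u v w _ _ ih1 ih2 =>
    obtain ⟨X, hX, Y, hY, he⟩ := ih1
    obtain ⟨X', hX', Y', hY', he'⟩ := ih2
    refine ⟨X * X', mul_mem hX hX', Y' * Y, mul_mem hY' hY, ?_⟩
    rw [he, he']
    simp only [mul_assoc]

theorem complete6 {q m : ℕ} {T : Fin m → List Bool × List Bool} {w0 : List Bool} {M : Type}
    [Group M] {a x y : M} (h : Rel6 q T w0 a x y) {r : List Bool} (hr : ThueEq T r w0) :
    tw6 r a x y = 1 := by
  obtain ⟨X, hX, Y, hY, he⟩ := J6_eqv h hr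
  obtain ⟨Y', hY', heY⟩ := J1_Ya h.ac h.ea hY
  have hpp : qq r a x y = X * qq w0 a x y * Y' := by
    unfold qq
    rw [he, mul_assoc, heY]
    simp only [mul_assoc]
  obtain ⟨hcx0, hcy0⟩ := J1_central h.braid
  have htx : Commute (tt x y) x := hcx0.pow_left 6
  have hty : Commute (tt x y) y := hcy0.pow_left 6
  have htest := h.test
  unfold tw6 at htest ⊢
  generalize tt x y = t at *
  have htX : t * X = X * t := by
    have h1 : Subgroup.closure {cc q x y, x} ≤ Subgroup.centralizer {t} := by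
      rw [Subgroup.closure_le]
      intro g hg
      rcases hg with rfl | hg
      · exact Subgroup.mem_centralizer_singleton_iff.2 (J1_cc q htx hty).eq.symm
      · rw [Set.mem_singleton_iff] at hg
        subst hg
        exact Subgroup.mem_centralizer_singleton_iff.2 htx.eq.symm
    exact (Subgroup.mem_centralizer_singleton_iff.1 (h1 hX)).symm
  have htY : t * Y' = Y' * t := by
    have h1 : Subgroup.closure {cc q x y, ee x y} ≤ Subgroup.centralizer {t} := by
      rw [Subgroup.closure_le]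
      intro g hg
      rcases hg with rfl | hg
      · exact Subgroup.mem_centralizer_singleton_iff.2 (J1_cc q htx hty).eq.symm
      · rw [Set.mem_singleton_iff] at hg
        subst hg
        exact Subgroup.mem_centralizer_singleton_iff.2 (J1_ee htx hty).eq.symm
    exact (Subgroup.mem_centralizer_singleton_iff.1 (h1 hY')).symm
  have h1 : (qq r a x y)⁻¹ * t * qq r a x y =
      Y'⁻¹ * ((qq w0 a x y)⁻¹ * t * qq w0 a x y) * Y' := by
    rw [hpp]
    have h2 : X⁻¹ * t * X = t := by rw [mul_assoc, htX, inv_mul_cancel_left]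
    calc (X * qq w0 a x y * Y')⁻¹ * t * (X * qq w0 a x y * Y')
        = Y'⁻¹ * ((qq w0 a x y)⁻¹ * (X⁻¹ * t * X) * qq w0 a x y) * Y' := by
          simp only [mul_inv_rev, mul_assoc]
      _ = _ := by rw [h2]
  have h3 : t = Y'⁻¹ * t * Y' := by rw [mul_assoc, htY, inv_mul_cancel_left]
  rw [h1]
  generalize (qq w0 a x y)⁻¹ * t * qq w0 a x y = v at *
  have h5 : t * v = v * t := mul_inv_eq_one.1 htest
  rw [mul_inv_eq_one]
  calc t * (Y'⁻¹ * v * Y') = (Y'⁻¹ * t * Y') * (Y'⁻¹ * v * Y') := by rw [← h3]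
    _ = Y'⁻¹ * (t * v) * Y' := by group
    _ = Y'⁻¹ * (v * t) * Y' := by rw [h5]
    _ = (Y'⁻¹ * v * Y') * (Y'⁻¹ * t * Y') := by group
    _ = (Y'⁻¹ * v * Y') * t := by rw [← h3]

theorem collapse6 {m : ℕ} (hm : 1 ≤ m) {T : Fin m → List Bool × List Bool} {w0 : List Bool}
    {M : Type} [Group M] {a x y : M} (h : Rel6 m T w0 a x y) (ha : a = 1) :
    x = 1 ∧ y = 1 := by
  subst ha
  have hxm : x ^ m = 1 := by
    have h1 := h.ad
    rw [one_mul, mul_one, pow_succ] at h1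
    exact (mul_eq_right.1 h1.symm)
  have hcc : cc m x y = 1 := by
    unfold cc
    rw [hxm, mul_one, mul_inv_cancel]
  have hx : x = 1 := by
    have h1 := h.rule ⟨0, hm⟩
    rw [hcc, J2_pos_one, J2_pos_one, J2_fl_sum, J2_fl_sum, zpow_zero, inv_one, one_mul, mul_one,
      mul_one, mul_one] at h1
    have h2 := mul_right_cancel h1
    simp only [zero_add, pow_one] at h2
    have h3 : x ^ (1 + (m + 1)) = x * x := by
      rw [show 1 + (m + 1) = m + 2 by omega, pow_add, hxm, one_mul, pow_two]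
    rw [h3] at h2
    exact (mul_eq_left.1 h2.symm)
  subst hx
  have hy : y = 1 := by
    have h1 := h.braid
    rw [one_mul, mul_one] at h1
    exact (mul_eq_left.1 h1.symm)
  exact ⟨rfl, hy⟩

end Pool.Agent.H832.Tor
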