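import Pool.Agent.H832.Tor.M0

set_option autoImplicit false

noncomputable section

namespace Pool.Agent.H832.Tor

open Pool.Agent.H832.Few (fl blk ThueEq parse)

/-- A section of the reduction modulo `6`. -/
def sec (z : Zc) : ℤ := if z.val ≤ 3 then (z.val : ℤ) else (z.val : ℤ) - 6

theorem sec_blk (b : Bool) : ∀ k ∈ blk b, sec ((k : ℤ) : Zc) = k := by
  cases b <;> decide

theorem sec_fl (w : List Bool) : ∀ k ∈ fl w, sec ((k : ℤ) : Zc) = k := by
  intro k hk
  obtain ⟨b, -, hb⟩ := List.mem_flatMap.1 hk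
  exact sec_blk b k hb

theorem sec_map (l : List ℤ) (h : ∀ k ∈ l, sec ((k : ℤ) : Zc) = k) :
    (l.map fun k : ℤ => (k : Zc)).map sec = l := by
  rw [List.map_map]
  refine Eq.trans (List.map_congr_left fun k hk => ?_) (List.map_id l)
  exact h k hk

theorem parse6 {m : ℕ} (T : Fin m → List Bool × List Bool)
    (hT : ∀ i, (T i).1 ≠ [] ∧ (T i).2 ≠ []) (r w : List Bool) (j j' : Zc)
    (h : Relation.EqvGen (Rw (F1 T) (F2 T)) ((fl r).map (fun k : ℤ => (k : Zc)) ++ [j])
      ((fl w).map (fun k : ℤ => (k : Zc)) ++ [j'])) : ThueEq T r w := by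
  have h1 : ∀ u v, Relation.EqvGen (Rw (F1 T) (F2 T)) u v →
      Relation.EqvGen (fun u v : List ℤ => ∃ (i : Fin m) (xs : List ℤ) (y : ℤ) (ys : List ℤ),
        u = xs ++ (fl (T i).1).dropLast ++ y :: ys ∧ v = xs ++ (fl (T i).2).dropLast ++ y :: ys)
        (u.map sec) (v.map sec) := by
    intro u v huv
    induction huv with
    | rel u v huv =>
      obtain ⟨i, xs, y, ys, rfl, rfl⟩ := huv
      refine Relation.EqvGen.rel _ _ ⟨i, xs.map sec, sec y, ys.map sec, ?_, ?_⟩
      · have e : ((F1 T).f i).map sec = (fl (T i).1).dropLast :=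
          sec_map _ fun k hk => sec_fl _ k (List.mem_of_mem_dropLast hk)
        simp [e]
      · have e : ((F2 T).f i).map sec = (fl (T i).2).dropLast :=
          sec_map _ fun k hk => sec_fl _ k (List.mem_of_mem_dropLast hk)
        simp [e]
    | refl u => exact Relation.EqvGen.refl _
    | symm u v _ ih => exact Relation.EqvGen.symm _ _ ih
    | trans u v w _ _ ih1 ih2 => exact Relation.EqvGen.trans _ _ _ ih1 ih2
  have h2 := h1 _ _ h
  rw [List.map_append, List.map_append, sec_map _ (sec_fl r), sec_map _ (sec_fl w)] at h2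
  exact (parse T hT r w (sec j) (sec j') h2).2

end Pool.Agent.H832.Tor
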