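import Pool.Agent.H832.Few.Defs

set_option autoImplicit false

/-!
# The relations of the group with `m + 5` relators
-/

noncomputable section

namespace Pool.Agent.H832.Tor

open Pool.Agent.H832.Few (fl hh cc ee pos)

/-- The letter which is used in the coding. -/
def et {M : Type} [Group M] (x y : M) : M := hh x y ^ 25

/-- The letter which is used in the test relation. -/
def tt {M : Type} [Group M] (x y : M) : M := hh x y ^ 6

/-- The word `P' = code(w) a`. -/
def qq {M : Type} [Group M] (w : List Bool) (a x y : M) : M := pos a (et x y) (fl w) * a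

/-- The test element of a word. -/
def tw6 {M : Type} [Group M] (w : List Bool) (a x y : M) : M :=
  tt x y * ((qq w a x y)⁻¹ * tt x y * qq w a x y) *
    (((qq w a x y)⁻¹ * tt x y * qq w a x y) * tt x y)⁻¹

/-- The relations between `a, x, y`; there are `m + 5` of them. -/
structure Rel6 (q : ℕ) {m : ℕ} (T : Fin m → List Bool × List Bool) (w0 : List Bool) {M : Type} [Group M]
    (a x y : M) : Prop where
  braid : x * y * x = y * x * y
  ac : a * cc q x y = cc q x y * a
  ad : a * x = x ^ (m + 1) * a
  ea : ee x y * a = a * ee x y ^ (m + 1)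
  rule : ∀ i : Fin m, (cc q x y)⁻¹ *
    (x ^ ((i : ℕ) + 1) * pos a (et x y) (fl (T i).1) * ee x y ^ ((i : ℕ) + 1)) * cc q x y =
      x ^ ((i : ℕ) + 1 + (m + 1)) * pos a (et x y) (fl (T i).2) * ee x y ^ ((i : ℕ) + 1)
  test : tw6 w0 a x y = 1

end Pool.Agent.H832.Tor
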