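import Pool.Agent.H832.Few.M1
import Pool.Agent.H832.Tor.D1
import Pool.Agent.H832.Tor.D2
import Pool.Agent.H832.Tor.Rel

set_option autoImplicit false

noncomputable section

namespace Pool.Agent.H832.Tor

open Pool.Agent.H832.Few (D dd de powHom rangeEquiv rangeEquiv_apply posw Conn fl hh cc ee kgen
  powHom_injective M1_not_dvd M1_not_dvd_sub fl_length fl_ne_nil hh_comm_lift)

/-- The family of the left hand sides. -/
def F1 {m : ℕ} (T : Fin m → List Bool × List Bool) : Fam m (m + 1) where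
  α i := ((i : ℕ) : ℤ) + 1
  β i := ((i : ℕ) : ℤ) + 1
  f i := ((fl (T i).1).dropLast).map fun k : ℤ => (k : Zc)
  hα := M1_not_dvd
  hβ := M1_not_dvd
  hαα := M1_not_dvd_sub
  hββ := M1_not_dvd_sub

/-- The family of the right hand sides. -/
def F2 {m : ℕ} (T : Fin m → List Bool × List Bool) : Fam m (m + 1) where
  α i := ((i : ℕ) : ℤ) + 1 + ((m + 1 : ℕ) : ℤ)
  β i := ((i : ℕ) : ℤ) + 1
  f i := ((fl (T i).2).dropLast).map fun k : ℤ => (k : Zc)
  hα i h := M1_not_dvd i (dvd_add_self_right.1 h)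
  hβ := M1_not_dvd
  hαα i j hij h := by
    apply M1_not_dvd_sub i j hij
    have e : ((i : ℕ) : ℤ) + 1 + ((m + 1 : ℕ) : ℤ) - (((j : ℕ) : ℤ) + 1 + ((m + 1 : ℕ) : ℤ)) =
      ((i : ℕ) : ℤ) + 1 - (((j : ℕ) : ℤ) + 1) := by ring
    rwa [e] at h
  hββ := M1_not_dvd_sub

theorem M1_h1 (m : ℕ) : Function.Injective (fA (m + 1)) := by
  intro a b h
  apply powHom_injective 1 (m + 1) one_pos (Nat.succ_pos m)
  simpa [fA] using h

theorem M1_h2 (m : ℕ) : Function.Injective (fB (m + 1)) := by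
  intro a b h
  apply powHom_injective (m + 1) 1 (Nat.succ_pos m) one_pos
  simpa [fB] using h

theorem pos_append {M : Type} [Group M] (a : M) (κ : Cc →* M) (u v : List Zc) :
    pos a κ (u ++ v) = pos a κ u * pos a κ v := by
  simp [pos]

theorem pos_single {M : Type} [Group M] (a : M) (κ : Cc →* M) (k : Zc) :
    pos a κ [k] = a * κ (Multiplicative.ofAdd k) := by
  simp [pos]

theorem map_pos {M N : Type} [Group M] [Group N] (f : M →* N) (a : M) (κ : Cc →* M)
    (ks : List Zc) : f (pos a κ ks) = pos (f a) (f.comp κ) ks := by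
  simp only [pos, map_list_prod, List.map_map]
  congr 1
  apply List.map_congr_left
  intro k _
  simp

theorem cast_pow {M : Type} [Group M] (κ : Cc →* M) (k : ℤ) :
    κ (Multiplicative.ofAdd (k : Zc)) = κ (Multiplicative.ofAdd 1) ^ k := by
  rw [← map_zpow, ← ofAdd_zsmul]
  simp

theorem pos_cast {M : Type} [Group M] (a : M) (κ : Cc →* M) (ks : List ℤ) :
    pos a κ (ks.map fun k : ℤ => (k : Zc)) =
      Few.pos a (κ (Multiplicative.ofAdd 1)) ks := by
  unfold pos Few.pos
  rw [List.map_map]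
  congr 1
  apply List.map_congr_left
  intro k _
  simp only [Function.comp_apply]
  rw [cast_pow]

section

variable {m p : ℕ} (h1 : Function.Injective (fA p)) (h2 : Function.Injective (fB p))
  (F F' : Fam m p) (h3 : Function.Injective (iota h1 h2 F'))
  (h4 : Function.Injective (iota h1 h2 F))

theorem t_fA (w : D) : ga h1 h2 * gof h1 h2 (fA p w) = gof h1 h2 (fB p w) * ga h1 h2 := by
  have := HNNExtension.t_mul_of (φ := rangeEquiv (fA p) (fB p) h1 h2) ⟨fA p w, w, rfl⟩
  rw [rangeEquiv_apply] at this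
  exact this

theorem c_iota (w : U m) :
    gc h1 h2 F F' h3 h4 * g2of h1 h2 F F' h3 h4 (iota h1 h2 F' w) =
      g2of h1 h2 F F' h3 h4 (iota h1 h2 F w) * gc h1 h2 F F' h3 h4 := by
  have := HNNExtension.t_mul_of (φ := rangeEquiv (iota h1 h2 F') (iota h1 h2 F) h3 h4)
    ⟨iota h1 h2 F' w, w, rfl⟩
  rw [rangeEquiv_apply] at this
  exact this

theorem c_gens (o : Option (Fin m)) :
    gc h1 h2 F F' h3 h4 * g2of h1 h2 F F' h3 h4 (gens h1 h2 F' o) =
      g2of h1 h2 F F' h3 h4 (gens h1 h2 F o) * gc h1 h2 F F' h3 h4 := by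
  have := c_iota h1 h2 F F' h3 h4 (Monoid.Coprod.inr (FreeGroup.of o))
  simpa [iota] using this

theorem c_gk (k : Cc) :
    gc h1 h2 F F' h3 h4 * gh h1 h2 F F' h3 h4 k = gh h1 h2 F F' h3 h4 k * gc h1 h2 F F' h3 h4 := by
  have := c_iota h1 h2 F F' h3 h4 (Monoid.Coprod.inl k)
  unfold iota at this
  rw [Monoid.Coprod.lift_apply_inl, Monoid.Coprod.lift_apply_inl] at this
  exact this

theorem gof_comm (z : D) (k : Cc) :
    gof h1 h2 (z, 1) * gk h1 h2 k = gk h1 h2 k * gof h1 h2 (z, 1) := by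
  show gof h1 h2 (z, 1) * gof h1 h2 (1, k) = gof h1 h2 (1, k) * gof h1 h2 (z, 1)
  rw [← map_mul, ← map_mul]
  simp

theorem gh_comm_cde (k : Cc) (o : Option (Fin 2)) :
    gh h1 h2 F F' h3 h4 k * cde h1 h2 F F' h3 h4 o =
      cde h1 h2 F F' h3 h4 o * gh h1 h2 F F' h3 h4 k := by
  cases o with
  | none => exact (c_gk h1 h2 F F' h3 h4 k).symm
  | some i =>
    show g2of h1 h2 F F' h3 h4 _ * g2of h1 h2 F F' h3 h4 _ =
      g2of h1 h2 F F' h3 h4 _ * g2of h1 h2 F F' h3 h4 _
    have := congrArg (g2of h1 h2 F F' h3 h4) (gof_comm h1 h2 (FreeGroup.of i) k).symm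
    rw [map_mul, map_mul] at this
    exact this

theorem gh_comm (k : Cc) (w : FreeGroup (Option (Fin 2))) :
    Commute (gh h1 h2 F F' h3 h4 k) (cdeHom h1 h2 F F' h3 h4 w) := by
  induction w using FreeGroup.induction_on with
  | C1 => simp
  | of o =>
    have := gh_comm_cde h1 h2 F F' h3 h4 k o
    rw [cdeHom, FreeGroup.lift_apply_of]
    exact this
  | inv_of o ih => rw [map_inv]; exact ih.inv_right
  | mul u v hu hv => rw [map_mul]; exact hu.mul_right hv

/-- The homomorphism from `⟨c, d, e⟩ × ⟨h⟩`. -/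
def jG : FreeGroup (Option (Fin 2)) × Cc →* G2 h1 h2 F F' h3 h4 :=
  (cdeHom h1 h2 F F' h3 h4).noncommCoprod (gh h1 h2 F F' h3 h4)
    fun w k => (gh_comm h1 h2 F F' h3 h4 k w).symm

theorem jG_apply (w : FreeGroup (Option (Fin 2))) (k : Cc) :
    jG h1 h2 F F' h3 h4 (w, k) = cdeHom h1 h2 F F' h3 h4 w * gh h1 h2 F F' h3 h4 k := rfl

theorem jG_injective (hp : 2 ≤ p) : Function.Injective (jG h1 h2 F F' h3 h4) := by
  rw [injective_iff_map_eq_one]
  rintro ⟨w, k⟩ h
  have h5 := cdeHom_injective h1 h2 F F' h3 h4 hp w k (by rw [← jG_apply]; exact h)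
  exact Prod.ext h5.1 h5.2

/-- `a ↦ 1`, base group `↦ 0`. -/
def chi1 : G1 h1 h2 →* Multiplicative (ZMod 4) :=
  HNNExtension.lift 1 (Multiplicative.ofAdd 1) (by intro a; simp)

theorem chi1_a : chi1 h1 h2 (ga h1 h2) = Multiplicative.ofAdd 1 := by
  simp [chi1, ga]

theorem chi1_of (b : B0) : chi1 h1 h2 (gof h1 h2 b) = 1 := by
  simp [chi1, gof]

theorem chi1_gk (k : Cc) : chi1 h1 h2 (gk h1 h2 k) = 1 := chi1_of h1 h2 _

theorem chi1_pos (ks : List Zc) : chi1 h1 h2 (pos (ga h1 h2) (gk h1 h2) ks) =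
    Multiplicative.ofAdd ((ks.length : ℕ) : ZMod 4) := by
  induction ks with
  | nil => simp [pos]
  | cons k ks ih =>
    have e : pos (ga h1 h2) (gk h1 h2) (k :: ks) =
      ga h1 h2 * gk h1 h2 (Multiplicative.ofAdd k) * pos (ga h1 h2) (gk h1 h2) ks := by
      simp [pos]
    rw [e, map_mul, map_mul, chi1_a, chi1_gk, mul_one, ih, ← ofAdd_add]
    congr 1
    push_cast [List.length_cons]
    ring

theorem chi1_gam (i : Fin m) : chi1 h1 h2 (gens h1 h2 F (some i)) =
    Multiplicative.ofAdd (((F.f i).length + 1 : ℕ) : ZMod 4) := by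
  show chi1 h1 h2 (_ ^ _ * _ * _ * _ ^ _) = _
  rw [map_mul, map_mul, map_mul, map_zpow, map_zpow, chi1_of, chi1_of, chi1_pos, chi1_a,
    one_zpow, one_zpow, one_mul, mul_one, ← ofAdd_add]
  congr 1
  push_cast
  ring

variable (hF : ∀ i, (((F.f i).length + 1 : ℕ) : ZMod 4) = (((F'.f i).length + 1 : ℕ) : ZMod 4))

include hF in
theorem chi1_iota (w : U m) :
    chi1 h1 h2 (iota h1 h2 F w) = chi1 h1 h2 (iota h1 h2 F' w) := by
  have : (chi1 h1 h2).comp (iota h1 h2 F) = (chi1 h1 h2).comp (iota h1 h2 F') := by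
    apply Monoid.Coprod.hom_ext
    · rw [MonoidHom.comp_assoc, MonoidHom.comp_assoc, iota, iota, Monoid.Coprod.lift_comp_inl,
        Monoid.Coprod.lift_comp_inl]
    · rw [MonoidHom.comp_assoc, MonoidHom.comp_assoc, iota, iota, Monoid.Coprod.lift_comp_inr,
        Monoid.Coprod.lift_comp_inr]
      apply FreeGroup.ext_hom
      intro o
      simp only [MonoidHom.comp_apply, FreeGroup.lift_apply_of]
      match o with
      | none => rfl
      | some i => rw [chi1_gam, chi1_gam, hF i]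
  exact DFunLike.congr_fun this w

/-- The homomorphism on the second HNN extension. -/
def chi2 : G2 h1 h2 F F' h3 h4 →* Multiplicative (ZMod 4) :=
  HNNExtension.lift (chi1 h1 h2) 1 (by
    rintro ⟨_, w, rfl⟩
    rw [rangeEquiv_apply, one_mul, mul_one]
    exact (chi1_iota h1 h2 F F' hF w).symm)

theorem chi2_of (g : G1 h1 h2) : chi2 h1 h2 F F' h3 h4 hF (g2of h1 h2 F F' h3 h4 g) =
    chi1 h1 h2 g := by
  simp [chi2, g2of]

theorem chi2_c : chi2 h1 h2 F F' h3 h4 hF (gc h1 h2 F F' h3 h4) = 1 := by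
  simp [chi2, gc]

theorem chi2_cde (w : FreeGroup (Option (Fin 2))) :
    chi2 h1 h2 F F' h3 h4 hF (cdeHom h1 h2 F F' h3 h4 w) = 1 := by
  have : (chi2 h1 h2 F F' h3 h4 hF).comp (cdeHom h1 h2 F F' h3 h4) = 1 := by
    apply FreeGroup.ext_hom
    intro o
    simp only [MonoidHom.comp_apply, cdeHom, FreeGroup.lift_apply_of, MonoidHom.one_apply]
    cases o with
    | none => exact chi2_c h1 h2 F F' h3 h4 hF
    | some i =>
      show chi2 h1 h2 F F' h3 h4 hF (g2of h1 h2 F F' h3 h4 _) = 1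
      rw [chi2_of, chi1_of]
  exact DFunLike.congr_fun this w

end

section

variable {K : Type} [Group K] (m : ℕ) (x y : K) (κ : Cc →* K) (hb : x * y * x = y * x * y)
  (hκ : κ (Multiplicative.ofAdd 1) = hh x y)

include hb hκ in
theorem kap_comm (k : Cc) (w : FreeGroup (Option (Fin 2))) :
    Commute (κ k) (FreeGroup.lift (kgen m x y) w) := by
  have h : κ k = hh x y ^ ((Multiplicative.toAdd k).val : ℤ) := by
    rw [← hκ, ← cast_pow]
    simp
  rw [h]
  exact (hh_comm_lift m x y hb w).zpow_left _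

/-- The homomorphism into `K`. -/
def jK : FreeGroup (Option (Fin 2)) × Cc →* K :=
  (FreeGroup.lift (kgen m x y)).noncommCoprod κ
    fun w k => (kap_comm m x y κ hb hκ k w).symm

theorem jK_apply (w : FreeGroup (Option (Fin 2))) (k : Cc) :
    jK m x y κ hb hκ (w, k) = FreeGroup.lift (kgen m x y) w * κ k := rfl

theorem jK_injective (hf : ∀ (w : FreeGroup (Option (Fin 2))) (k : Cc),
      FreeGroup.lift (kgen m x y) w * κ k = 1 → w = 1 ∧ k = 1) :
    Function.Injective (jK m x y κ hb hκ) := by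
  rw [injective_iff_map_eq_one]
  rintro ⟨w, k⟩ h
  have h5 := hf w k (by rw [← jK_apply m x y κ hb hκ]; exact h)
  exact Prod.ext h5.1 h5.2

end

theorem fl_dropLast_length {w : List Bool} (hw : w ≠ []) :
    (((fl w).dropLast.length + 1 : ℕ) : ZMod 4) = 0 := by
  have h1 : (fl w).dropLast.length + 1 = 4 * w.length := by
    rw [List.length_dropLast, fl_length]
    have := List.length_pos_iff.2 hw
    omega
  rw [h1]
  push_cast
  have : (4 : ZMod 4) = 0 := by decide
  rw [this, zero_mul]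

theorem pp_length (w : List Bool) : (((fl w ++ [0]).length : ℕ) : ZMod 4) = 1 := by
  rw [List.length_append, fl_length]
  push_cast
  have : (4 : ZMod 4) = 0 := by decide
  rw [this, zero_mul]
  simp

end Pool.Agent.H832.Tor
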