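import Pool.Agent.H832.Tor.L6
import Pool.Agent.H832.Tor.E6
import Pool.Agent.H832.Few.G

set_option autoImplicit false

noncomputable section

namespace Pool.Agent.H832.Tor

open Pool.Agent.H832.Few (D dd de powHom rangeEquiv rangeEquiv_apply posw Conn fl hh cc ee kgen
  ThueEq exists_amalgam pos_dropLast)

/-- The tower: the group in which `h` has order `6`. -/
theorem exists_bar (q : ℕ) (hq : 1 ≤ q) {m : ℕ} (hm : 1 ≤ m) (T : Fin m → List Bool × List Bool)
    (hT : ∀ i, (T i).1 ≠ [] ∧ (T i).2 ≠ []) :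
    ∃ (K M : Type) (_ : Group K) (_ : Group M) (x y : K) (κ : Cc →* K)
      (hb : x * y * x = y * x * y) (hκ : κ (Multiplicative.ofAdd 1) = hh x y) (iK : K →* M)
      (a : M) (χ : M →* Multiplicative (ZMod 4)),
      Function.Injective (jK q x y κ hb hκ) ∧ Function.Injective iK ∧
      (∀ k, χ (iK k) = 1) ∧ χ a = Multiplicative.ofAdd 1 ∧
      a * iK (cc q x y) = iK (cc q x y) * a ∧
      a * iK x = iK x ^ (m + 1) * a ∧
      iK (ee x y) * a = a * iK (ee x y) ^ (m + 1) ∧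
      (∀ i : Fin m, (iK (cc q x y))⁻¹ *
        (iK x ^ ((i : ℕ) + 1) * Few.pos a (iK (hh x y)) (fl (T i).1) *
          iK (ee x y) ^ ((i : ℕ) + 1)) * iK (cc q x y) =
        iK x ^ ((i : ℕ) + 1 + (m + 1)) * Few.pos a (iK (hh x y)) (fl (T i).2) *
          iK (ee x y) ^ ((i : ℕ) + 1)) ∧
      (∀ r w : List Bool, ¬ ThueEq T r w → ∀ k l : K,
        Few.pos a (iK (hh x y)) (fl r) * a ≠
          iK k * (Few.pos a (iK (hh x y)) (fl w) * a) * iK l) ∧
      (∀ n : ℕ, a ^ n = 1 → n = 0) ∧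
      (∀ w : List Bool, χ (Few.pos a (iK (hh x y)) (fl w) * a) = Multiplicative.ofAdd 1) := by
  obtain ⟨K, _, x, y, κ, hb, hκ, hf⟩ := exists_K6 q hq
  have hp : 2 ≤ m + 1 := by omega
  have h1 := M1_h1 m
  have h2 := M1_h2 m
  have h3 := iota_injective h1 h2 (F2 T)
  have h4 := iota_injective h1 h2 (F1 T)
  have hj := jG_injective h1 h2 (F1 T) (F2 T) h3 h4 hp
  have hjK := jK_injective q x y κ hb hκ hf
  obtain ⟨M, _, i2, iK, hcomp, hmid, huniv⟩ := exists_amalgam _ _ hj hjK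
  have hcomp' : ∀ (w : FreeGroup (Option (Fin 2))) (k : Cc),
      i2 (cdeHom h1 h2 (F1 T) (F2 T) h3 h4 w * gh h1 h2 (F1 T) (F2 T) h3 h4 k) =
        iK (FreeGroup.lift (kgen q x y) w * κ k) := by
    intro w k
    exact DFunLike.congr_fun hcomp (w, k)
  have hcde : ∀ o, i2 (cde h1 h2 (F1 T) (F2 T) h3 h4 o) = iK (kgen q x y o) := by
    intro o
    have := hcomp' (FreeGroup.of o) 1
    rw [map_one, mul_one, map_one, mul_one, cdeHom, FreeGroup.lift_apply_of,
      FreeGroup.lift_apply_of] at this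
    exact this
  have hgh : i2 (gh h1 h2 (F1 T) (F2 T) h3 h4 (Multiplicative.ofAdd 1)) = iK (hh x y) := by
    have := hcomp' 1 (Multiplicative.ofAdd 1)
    rw [map_one (cdeHom h1 h2 (F1 T) (F2 T) h3 h4), one_mul,
      map_one (FreeGroup.lift (kgen q x y)), one_mul, hκ] at this
    exact this
  set ofF : G1 h1 h2 →* M := i2.comp (g2of h1 h2 (F1 T) (F2 T) h3 h4) with hofF
  set a : M := ofF (ga h1 h2) with ha
  have hx : ofF (gof h1 h2 (dd, 1)) = iK x := by
    have := hcde (some 0)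
    simpa [cde, kgen, hofF] using this
  have he : ofF (gof h1 h2 (de, 1)) = iK (ee x y) := by
    have := hcde (some 1)
    simpa [cde, kgen, hofF] using this
  have hc : i2 (gc h1 h2 (F1 T) (F2 T) h3 h4) = iK (cc q x y) := by
    have := hcde none
    simpa [cde, kgen] using this
  have hh' : ofF (gk h1 h2 (Multiplicative.ofAdd 1)) = iK (hh x y) := hgh
  have rac : a * iK (cc q x y) = iK (cc q x y) * a := by
    have := congrArg i2 (c_gens h1 h2 (F1 T) (F2 T) h3 h4 none)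
    rw [map_mul, map_mul, hc] at this
    exact this.symm
  have rad : a * iK x = iK x ^ (m + 1) * a := by
    have := congrArg ofF (t_fA h1 h2 dd)
    have e1 : fA (m + 1) dd = (dd, 1) := by simp [fA, powHom, dd]
    have e2 : fB (m + 1) dd = (dd, 1) ^ (m + 1) := by
      simp only [fB, powHom, dd, MonoidHom.comp_apply, FreeGroup.lift_apply_of, if_true]
      rw [map_pow]; rfl
    rw [e1, e2, map_mul, map_mul, map_pow, map_pow, hx] at this
    exact this
  have rea : iK (ee x y) * a = a * iK (ee x y) ^ (m + 1) := by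
    have := congrArg ofF (t_fA h1 h2 de)
    have e2 : fA (m + 1) de = (de, 1) ^ (m + 1) := by
      simp only [fA, powHom, de, MonoidHom.comp_apply, FreeGroup.lift_apply_of]
      rw [if_neg (by decide), map_pow]; rfl
    have e1 : fB (m + 1) de = (de, 1) := by simp [fB, powHom, de]
    rw [e1, e2, map_mul, map_mul, map_pow, map_pow, he] at this
    exact this.symm
  have hpos : ∀ ks : List ℤ, ofF (pos (ga h1 h2) (gk h1 h2) (ks.map fun k : ℤ => (k : Zc))) =
      Few.pos a (iK (hh x y)) ks := by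
    intro ks
    rw [pos_cast, Few.map_pos, hh']
  have hgam1 : ∀ i : Fin m, ofF (gens h1 h2 (F1 T) (some i)) =
      iK x ^ ((i : ℕ) + 1) * Few.pos a (iK (hh x y)) (fl (T i).1) *
        iK (ee x y) ^ ((i : ℕ) + 1) := by
    intro i
    show ofF (_ ^ _ * _ * _ * _ ^ _) = _
    have e4 : (F1 T).f i = (fl (T i).1).dropLast.map fun k : ℤ => (k : Zc) := rfl
    rw [e4, map_mul, map_mul, map_mul, map_zpow, map_zpow, hpos, hx, he]
    have e3 := pos_dropLast a (iK (hh x y)) (hT i).1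
    have e5 : (F1 T).α i = (((i : ℕ) + 1 : ℕ) : ℤ) := by push_cast; rfl
    have e6 : (F1 T).β i = (((i : ℕ) + 1 : ℕ) : ℤ) := by push_cast; rfl
    rw [e5, e6, zpow_natCast, zpow_natCast, ← e3]
    simp only [mul_assoc]
    rfl
  have hgam2 : ∀ i : Fin m, ofF (gens h1 h2 (F2 T) (some i)) =
      iK x ^ ((i : ℕ) + 1 + (m + 1)) * Few.pos a (iK (hh x y)) (fl (T i).2) *
        iK (ee x y) ^ ((i : ℕ) + 1) := by
    intro i
    show ofF (_ ^ _ * _ * _ * _ ^ _) = _
    have e4 : (F2 T).f i = (fl (T i).2).dropLast.map fun k : ℤ => (k : Zc) := rfl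
    rw [e4, map_mul, map_mul, map_mul, map_zpow, map_zpow, hpos, hx, he]
    have e3 := pos_dropLast a (iK (hh x y)) (hT i).2
    have e5 : (F2 T).α i = (((i : ℕ) + 1 + (m + 1) : ℕ) : ℤ) := by push_cast; rfl
    have e6 : (F2 T).β i = (((i : ℕ) + 1 : ℕ) : ℤ) := by push_cast; rfl
    rw [e5, e6, zpow_natCast, zpow_natCast, ← e3]
    simp only [mul_assoc]
    rfl
  have rrule : ∀ i : Fin m, (iK (cc q x y))⁻¹ *
      (iK x ^ ((i : ℕ) + 1) * Few.pos a (iK (hh x y)) (fl (T i).1) *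
        iK (ee x y) ^ ((i : ℕ) + 1)) * iK (cc q x y) =
      iK x ^ ((i : ℕ) + 1 + (m + 1)) * Few.pos a (iK (hh x y)) (fl (T i).2) *
        iK (ee x y) ^ ((i : ℕ) + 1) := by
    intro i
    have := congrArg i2 (c_gens h1 h2 (F1 T) (F2 T) h3 h4 (some i))
    rw [map_mul, map_mul, hc] at this
    have h5 : iK (cc q x y) * ofF (gens h1 h2 (F2 T) (some i)) =
      ofF (gens h1 h2 (F1 T) (some i)) * iK (cc q x y) := this
    rw [hgam1, hgam2] at h5
    rw [mul_assoc, ← h5, inv_mul_cancel_left]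
  have hpw : ∀ w : List Bool, i2 (pw h1 h2 (F1 T) (F2 T) h3 h4 0
      ((fl w).map (fun k : ℤ => (k : Zc)) ++ [0])) = Few.pos a (iK (hh x y)) (fl w) * a := by
    intro w
    show ofF _ = _
    rw [ofAdd_zero, map_one, one_mul, pos_append, pos_single, ofAdd_zero, map_one, mul_one,
      map_mul, hpos]
  have hF : ∀ i, ((((F1 T).f i).length + 1 : ℕ) : ZMod 4) =
      ((((F2 T).f i).length + 1 : ℕ) : ZMod 4) := by
    intro i
    show ((((fl (T i).1).dropLast.map fun k : ℤ => (k : Zc)).length + 1 : ℕ) : ZMod 4) =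
      ((((fl (T i).2).dropLast.map fun k : ℤ => (k : Zc)).length + 1 : ℕ) : ZMod 4)
    rw [List.length_map, List.length_map, fl_dropLast_length (hT i).1,
      fl_dropLast_length (hT i).2]
  obtain ⟨χ, hχ2, hχK⟩ := huniv (Multiplicative (ZMod 4)) (chi2 h1 h2 (F1 T) (F2 T) h3 h4 hF) 1
    (by
      ext1 ⟨w, k⟩
      rw [MonoidHom.comp_apply, jG_apply, map_mul, chi2_cde]
      show 1 * chi2 h1 h2 (F1 T) (F2 T) h3 h4 hF (g2of h1 h2 (F1 T) (F2 T) h3 h4 _) = _
      rw [chi2_of, chi1_gk]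
      simp)
  have hχKk : ∀ k, χ (iK k) = 1 := fun k => by
    rw [← MonoidHom.comp_apply, hχK]
    rfl
  have hχa : χ a = Multiplicative.ofAdd 1 := by
    show χ (i2 (g2of h1 h2 (F1 T) (F2 T) h3 h4 _)) = _
    rw [← MonoidHom.comp_apply, hχ2, chi2_of, chi1_a]
  have hχpw : ∀ w : List Bool, χ (Few.pos a (iK (hh x y)) (fl w) * a) =
      Multiplicative.ofAdd 1 := by
    intro w
    rw [← hpw, ← MonoidHom.comp_apply, hχ2]
    show chi2 h1 h2 (F1 T) (F2 T) h3 h4 hF (g2of h1 h2 (F1 T) (F2 T) h3 h4 _) = _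
    rw [chi2_of, map_mul, chi1_gk, one_mul, chi1_pos]
    have e : ((fl w).map (fun k : ℤ => (k : Zc)) ++ [0]).length = (fl w ++ [0]).length := by
      simp
    rw [e, pp_length]
  have hnm : ∀ ks : List Zc, ks ≠ [] → pw h1 h2 (F1 T) (F2 T) h3 h4 0 ks ∉
      (jG h1 h2 (F1 T) (F2 T) h3 h4).range := by
    rintro ks hks ⟨⟨v, k⟩, hv⟩
    exact pw_not_mem h1 h2 (F1 T) (F2 T) h3 h4 hp 0 ks hks v k hv.symm
  have hPR : ∀ r w : List Bool, ¬ ThueEq T r w → ∀ k l : K,
        Few.pos a (iK (hh x y)) (fl r) * a ≠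
          iK k * (Few.pos a (iK (hh x y)) (fl w) * a) * iK l := by
    intro r w hr k l e
    rw [← hpw, ← hpw] at e
    obtain ⟨⟨u, i⟩, ⟨v, j⟩, -, -, e5⟩ := hmid _ _ k l (hnm _ (by simp)) (hnm _ (by simp)) e
    have e6 : pw h1 h2 (F1 T) (F2 T) h3 h4 0 ((fl r).map (fun k : ℤ => (k : Zc)) ++ [0]) =
        cdeHom h1 h2 (F1 T) (F2 T) h3 h4 u *
        pw h1 h2 (F1 T) (F2 T) h3 h4 (Multiplicative.toAdd i)
          ((fl w).map (fun k : ℤ => (k : Zc)) ++ [Multiplicative.toAdd j]) *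
        cdeHom h1 h2 (F1 T) (F2 T) h3 h4 v := by
      rw [e5, jG_apply, jG_apply, ← (gh_comm h1 h2 (F1 T) (F2 T) h3 h4 j v).eq]
      have e10 : pw h1 h2 (F1 T) (F2 T) h3 h4 (Multiplicative.toAdd i)
          ((fl w).map (fun k : ℤ => (k : Zc)) ++ [Multiplicative.toAdd j]) =
          gh h1 h2 (F1 T) (F2 T) h3 h4 i *
          pw h1 h2 (F1 T) (F2 T) h3 h4 0 ((fl w).map (fun k : ℤ => (k : Zc)) ++ [0]) *
          gh h1 h2 (F1 T) (F2 T) h3 h4 j := by
        simp only [pw, pos_append, pos_single, ofAdd_zero, ofAdd_toAdd, map_one, mul_one, one_mul,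
          map_mul, mul_assoc]
        rfl
      rw [e10]
      simp only [mul_assoc]
    obtain ⟨-, e11⟩ := sound h1 h2 (F1 T) (F2 T) h3 h4 hp u v _ _ _ _ e6
    exact hr (parse6 T hT r w 0 _ e11)
  have hAk : ∀ k : ℕ, pw h1 h2 (F1 T) (F2 T) h3 h4 0 (List.replicate k 0) =
      g2of h1 h2 (F1 T) (F2 T) h3 h4 (ga h1 h2 ^ k) := by
    intro k
    show g2of h1 h2 (F1 T) (F2 T) h3 h4 _ = _
    congr 1
    rw [ofAdd_zero, map_one, one_mul, pos, List.map_replicate, ofAdd_zero, map_one, mul_one,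
      List.prod_replicate]
  have hnm' : ∀ k : ℕ, k ≠ 0 → g2of h1 h2 (F1 T) (F2 T) h3 h4 (ga h1 h2 ^ k) ∉
      (jG h1 h2 (F1 T) (F2 T) h3 h4).range := by
    intro k hk0
    rw [← hAk]
    exact hnm _ (by simpa using hk0)
  have hiK : Function.Injective iK := by
    rw [injective_iff_map_eq_one]
    intro k hk
    obtain ⟨u, v, hu, hv, e5⟩ := hmid _ _ k 1 (hnm' 1 one_ne_zero) (hnm' 1 one_ne_zero)
      (by rw [hk, map_one, one_mul, mul_one])
    have hv1 : v = 1 := hjK (by rw [← hv, map_one])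
    rw [hv1, map_one, mul_one] at e5
    have hu1 : jG h1 h2 (F1 T) (F2 T) h3 h4 u = 1 := by
      exact mul_eq_right.1 e5.symm
    have hu2 : u = 1 := hj (by rw [hu1, map_one])
    rw [hu, hu2, map_one]
  have hinj : ∀ k : ℕ, a ^ k = 1 → k = 0 := by
    intro k hk1
    by_contra hk0
    have e1 : i2 (g2of h1 h2 (F1 T) (F2 T) h3 h4 (ga h1 h2 ^ (k + 1))) =
        iK 1 * i2 (g2of h1 h2 (F1 T) (F2 T) h3 h4 (ga h1 h2 ^ 1)) * iK 1 := by
      have e2 : ∀ j : ℕ, i2 (g2of h1 h2 (F1 T) (F2 T) h3 h4 (ga h1 h2 ^ j)) = a ^ j := by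
        intro j
        rw [map_pow, map_pow]
        rfl
      rw [e2, e2, map_one, one_mul, mul_one, pow_succ, hk1, one_mul, pow_one]
    obtain ⟨u, v, hu, hv, e5⟩ := hmid _ _ _ _ (hnm' 1 one_ne_zero)
      (hnm' (k + 1) (Nat.succ_ne_zero k)) e1
    have hu1 : u = 1 := hjK (by rw [← hu, map_one])
    have hv1 : v = 1 := hjK (by rw [← hv, map_one])
    rw [hu1, hv1, map_one, one_mul, mul_one, pow_succ, map_mul, pow_one] at e5
    have e6 : g2of h1 h2 (F1 T) (F2 T) h3 h4 (ga h1 h2 ^ k) = 1 := by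
      simpa using e5
    exact hnm' k hk0 (by rw [e6]; exact Subgroup.one_mem _)
  exact ⟨K, M, inferInstance, inferInstance, x, y, κ, hb, hκ, iK, a, χ, hjK, hiK, hχKk, hχa, rac,
    rad, rea, rrule, hPR, hinj, hχpw⟩

end Pool.Agent.H832.Tor
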