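import Pool.Agent.H832.Tor.Defs
import Pool.Agent.H832.Few.H

set_option autoImplicit false

noncomputable section

namespace Pool.Agent.H832.Tor

open Pool.Agent.H832.Few (H_shear H_left H_conj H_shear_apply H_left_apply)

theorem W6_comm {G : Type} [Group G] (f : G → Equiv.Perm (Fin 5)) (g : G)
    (hf : ∀ v, f (g * v) = f v) : Commute (H_left G g) (H_shear G f) := by
  have h := H_conj f g
  have h' : (fun v => f (g * v)) = f := funext hf
  rw [h', mul_assoc, inv_mul_eq_iff_eq_mul] at h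
  exact h.symm

theorem exists_twist {G K E : Type} [Group G] [Group K] [Group E] (iK : K →* G) (jE : E →* K)
    (f : G → Equiv.Perm (Fin 5)) (hf : ∀ k v, f (iK k * v) = f v)
    (lam : E →* Multiplicative ℤ) (n : G → ℤ)
    (hn : ∀ u v, n (iK (jE u) * v) = Multiplicative.toAdd (lam u) + n v) :
    ∃ Ψ : K × Multiplicative ℤ →* Equiv.Perm (G × Fin 5),
      (∀ u : E, Ψ (jE u, lam u) = H_left G (iK (jE u))) ∧
      (∀ j : ℤ, Ψ (1, Multiplicative.ofAdd j) = H_shear G (fun v => f v ^ j)) := by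
  set σ : Equiv.Perm (G × Fin 5) := H_shear G f with hσ
  set Γ : Equiv.Perm (G × Fin 5) := H_shear G (fun v => f v ^ (-n v)) with hΓ
  have hpow : ∀ j : ℤ, σ ^ j = H_shear G (fun v => f v ^ j) := by
    intro j
    rw [hσ, ← map_zpow]
    rfl
  have hc : ∀ (k : K) (j : Multiplicative ℤ), Commute (((H_left G).comp iK) k)
      (zpowersHom _ σ j) := by
    intro k j
    rw [zpowersHom_apply]
    exact (W6_comm f (iK k) (hf k)).zpow_right _
  let Ψ0 : K × Multiplicative ℤ →* Equiv.Perm (G × Fin 5) :=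
    ((H_left G).comp iK).noncommCoprod (zpowersHom _ σ) hc
  have hΨ0 : ∀ k j, Ψ0 (k, Multiplicative.ofAdd j) = H_left G (iK k) * σ ^ j := by
    intro k j
    simp [Ψ0, MonoidHom.noncommCoprod_apply, zpowersHom_apply]
  let Ψ : K × Multiplicative ℤ →* Equiv.Perm (G × Fin 5) :=
    (MulAut.conj Γ).toMonoidHom.comp Ψ0
  have hΨ : ∀ k j, Ψ (k, Multiplicative.ofAdd j) = Γ * (H_left G (iK k) * σ ^ j) * Γ⁻¹ := by
    intro k j
    rw [← hΨ0]
    rfl
  refine ⟨Ψ, ?_, ?_⟩
  · intro u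
    have e : (jE u, lam u) = (jE u, Multiplicative.ofAdd (Multiplicative.toAdd (lam u))) := rfl
    rw [e, hΨ, mul_inv_eq_iff_eq_mul, hpow]
    ext1 ⟨v, s⟩
    simp only [Equiv.Perm.mul_apply, hΓ, H_shear_apply, H_left_apply]
    refine Prod.ext rfl ?_
    show (f (iK (jE u) * v) ^ (-n (iK (jE u) * v))) ((f v ^ (Multiplicative.toAdd (lam u))) s) =
      (f v ^ (-n v)) s
    rw [hf, ← Equiv.Perm.mul_apply, ← zpow_add, hn]
    congr 2
    ring
  · intro j
    rw [hΨ, mul_inv_eq_iff_eq_mul, map_one, map_one, one_mul, hpow, hΓ, ← map_mul, ← map_mul]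
    congr 1
    funext v
    show f v ^ (-n v) * f v ^ j = f v ^ j * f v ^ (-n v)
    rw [← zpow_add, ← zpow_add, add_comm]

end Pool.Agent.H832.Tor
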