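import Pool.Agent.H832.Tor.M1
import Pool.Agent.H832.Tor.H6
import Pool.Agent.H832.Tor.W6
import Pool.Agent.H832.Few.P1

set_option autoImplicit false

noncomputable section

namespace Pool.Agent.H832.Tor

open Pool.Agent.H832.Few (fl hh cc ee kgen ThueEq H_left H_shear H_conj P1_hh P1_cc P1_ee)

/-- The weights of `c, d, e`. -/
def wt (m : ℕ) : Option (Fin 2) → Multiplicative ℤ
  | none => Multiplicative.ofAdd (m : ℤ)
  | some _ => Multiplicative.ofAdd 1

/-- The homomorphism given by the weights. -/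
def lam (m : ℕ) : FreeGroup (Option (Fin 2)) × Cc →* Multiplicative ℤ :=
  (FreeGroup.lift (wt m)).comp (MonoidHom.fst _ _)

theorem lam_apply (m : ℕ) (w : FreeGroup (Option (Fin 2))) (k : Cc) :
    lam m (w, k) = FreeGroup.lift (wt m) w := rfl

theorem hh_prod {K : Type} [Group K] (x y : K) :
    hh ((x, Multiplicative.ofAdd 1) : K × Multiplicative ℤ) (y, Multiplicative.ofAdd 1) =
      (hh x y, Multiplicative.ofAdd 6) := Prod.ext rfl rfl

theorem cc_prod {K : Type} [Group K] (m : ℕ) (x y : K) :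
    cc m ((x, Multiplicative.ofAdd 1) : K × Multiplicative ℤ) (y, Multiplicative.ofAdd 1) =
      (cc m x y, Multiplicative.ofAdd (m : ℤ)) := by
  refine Prod.ext rfl ?_
  show (Multiplicative.ofAdd (1 : ℤ)) ^ 4 * (Multiplicative.ofAdd (1 : ℤ)) ^ m *
    ((Multiplicative.ofAdd (1 : ℤ)) ^ 4)⁻¹ = Multiplicative.ofAdd (m : ℤ)
  rw [mul_comm, inv_mul_cancel_left, ← ofAdd_nsmul]
  simp

theorem ee_prod {K : Type} [Group K] (x y : K) :
    ee ((x, Multiplicative.ofAdd 1) : K × Multiplicative ℤ) (y, Multiplicative.ofAdd 1) =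
      (ee x y, Multiplicative.ofAdd 1) := Prod.ext rfl rfl

/-- The model. -/
theorem model6 (q : ℕ) (hq : 1 ≤ q) {m : ℕ} (hm : 1 ≤ m) (T : Fin m → List Bool × List Bool)
    (hT : ∀ i, (T i).1 ≠ [] ∧ (T i).2 ≠ []) (w0 r : List Bool) (hr : ¬ ThueEq T r w0) :
    ∃ (M : Type) (_ : Group M) (a x y : M), Rel6 q T w0 a x y ∧ tw6 r a x y ≠ 1 := by
  obtain ⟨K, G, _, _, x, y, κ, hb, hκ, iK, a, χ, hjK, hiK, hχK, hχa, rac, rad, rea, rrule, hPR,
    hinj, hχpw⟩ := exists_bar q hq hm T hT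
  obtain ⟨f, hfK, hf5, hfP, hfR⟩ := exists_fibre iK.range χ
    (by rintro _ ⟨k, rfl⟩; exact hχK k)
    (Few.pos a (iK (hh x y)) (fl w0) * a) (Few.pos a (iK (hh x y)) (fl r) * a)
    (hχpw w0) (hχpw r)
    (by rintro _ ⟨k, rfl⟩ _ ⟨l, rfl⟩; exact hPR r w0 hr k l)
  obtain ⟨n, hn⟩ := exists_gauge (iK.comp (jK q x y κ hb hκ)) (hiK.comp hjK) (lam q)
  obtain ⟨Ψ, hΨ1, hΨ2⟩ := exists_twist iK (jK q x y κ hb hκ) f
    (fun k v => hfK _ ⟨k, rfl⟩ v) (lam q) n hn
  have ex : Ψ (x, Multiplicative.ofAdd 1) = H_left G (iK x) := by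
    have := hΨ1 (FreeGroup.of (some 0), 1)
    have e1 : jK q x y κ hb hκ (FreeGroup.of (some 0), 1) = x := by
      rw [jK_apply, map_one, mul_one, FreeGroup.lift_apply_of]
      rfl
    have e2 : lam q (FreeGroup.of (some 0), 1) = Multiplicative.ofAdd 1 := by
      rw [lam_apply, FreeGroup.lift_apply_of]
      rfl
    rwa [e1, e2] at this
  have ec : cc q (Ψ (x, Multiplicative.ofAdd 1)) (Ψ (y, Multiplicative.ofAdd 1)) =
      H_left G (iK (cc q x y)) := by
    rw [← P1_cc, cc_prod]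
    have := hΨ1 (FreeGroup.of none, 1)
    have e1 : jK q x y κ hb hκ (FreeGroup.of none, 1) = cc q x y := by
      rw [jK_apply, map_one, mul_one, FreeGroup.lift_apply_of]
      rfl
    have e2 : lam q (FreeGroup.of none, 1) = Multiplicative.ofAdd (q : ℤ) := by
      rw [lam_apply, FreeGroup.lift_apply_of]
      rfl
    rwa [e1, e2] at this
  have ee' : ee (Ψ (x, Multiplicative.ofAdd 1)) (Ψ (y, Multiplicative.ofAdd 1)) =
      H_left G (iK (ee x y)) := by
    rw [← P1_ee, ee_prod]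
    have := hΨ1 (FreeGroup.of (some 1), 1)
    have e1 : jK q x y κ hb hκ (FreeGroup.of (some 1), 1) = ee x y := by
      rw [jK_apply, map_one, mul_one, FreeGroup.lift_apply_of]
      rfl
    have e2 : lam q (FreeGroup.of (some 1), 1) = Multiplicative.ofAdd 1 := by
      rw [lam_apply, FreeGroup.lift_apply_of]
      rfl
    rwa [e1, e2] at this
  have h6 : hh x y ^ 6 = 1 := by
    rw [← hκ, ← map_pow, ← ofAdd_nsmul]
    have : (6 • (1 : Zc)) = 0 := by decide
    rw [this, ofAdd_zero, map_one]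
  have eh : Ψ (hh x y, 1) = H_left G (iK (hh x y)) := by
    have := hΨ1 (1, Multiplicative.ofAdd 1)
    have e1 : jK q x y κ hb hκ (1, Multiplicative.ofAdd 1) = hh x y := by
      rw [jK_apply, map_one, one_mul, hκ]
    have e2 : lam q (1, Multiplicative.ofAdd 1) = 1 := by
      rw [lam_apply, map_one]
    rwa [e1, e2] at this
  have eet : et (Ψ (x, Multiplicative.ofAdd 1)) (Ψ (y, Multiplicative.ofAdd 1)) =
      H_left G (iK (hh x y)) := by
    have e1 : ((hh x y, Multiplicative.ofAdd 6) : K × Multiplicative ℤ) ^ 25 =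
        (hh x y, 1) * (1, Multiplicative.ofAdd 150) := by
      refine Prod.ext ?_ rfl
      show hh x y ^ 25 = hh x y * 1
      rw [show 25 = 6 * 4 + 1 by norm_num, pow_add, pow_mul, h6, one_pow, one_mul, pow_one,
        mul_one]
    rw [et, ← P1_hh, hh_prod, ← map_pow, e1, map_mul, eh, hΨ2]
    have e2 : (fun v => f v ^ (150 : ℤ)) = 1 := by
      funext v
      show f v ^ (150 : ℤ) = 1
      rw [show (150 : ℤ) = ((5 * 30 : ℕ) : ℤ) by norm_num, zpow_natCast, pow_mul, hf5, one_pow]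
    rw [e2, map_one, mul_one]
  have ett : tt (Ψ (x, Multiplicative.ofAdd 1)) (Ψ (y, Multiplicative.ofAdd 1)) =
      H_shear G f := by
    have e1 : ((hh x y, Multiplicative.ofAdd 6) : K × Multiplicative ℤ) ^ 6 =
        (1, Multiplicative.ofAdd 36) := by
      refine Prod.ext ?_ rfl
      show hh x y ^ 6 = 1
      exact h6
    rw [tt, ← P1_hh, hh_prod, ← map_pow, e1, hΨ2]
    congr 1
    funext v
    rw [show (36 : ℤ) = ((5 * 7 + 1 : ℕ) : ℤ) by norm_num, zpow_natCast, pow_add, pow_mul, hf5,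
      one_pow, one_mul, pow_one]
  have eqq : ∀ w, qq w (H_left G a) (Ψ (x, Multiplicative.ofAdd 1))
      (Ψ (y, Multiplicative.ofAdd 1)) = H_left G (Few.pos a (iK (hh x y)) (fl w) * a) := by
    intro w
    rw [qq, eet, map_mul, Few.map_pos]
  have etw : ∀ w, tw6 w (H_left G a) (Ψ (x, Multiplicative.ofAdd 1))
      (Ψ (y, Multiplicative.ofAdd 1)) = 1 ↔
      ∀ v, f v * f (Few.pos a (iK (hh x y)) (fl w) * a * v) =
        f (Few.pos a (iK (hh x y)) (fl w) * a * v) * f v := by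
    intro w
    rw [tw6, ett, eqq, H_conj, mul_inv_eq_one, ← map_mul, ← map_mul]
    constructor
    · intro h v
      ext s
      have h3 := congrArg (fun q : Equiv.Perm (G × Fin 5) => (q (v, s)).2) h
      exact congrArg Fin.val h3
    · intro h
      congr 1
      funext v
      exact h v
  refine ⟨Equiv.Perm (G × Fin 5), inferInstance, H_left G a, Ψ (x, Multiplicative.ofAdd 1),
    Ψ (y, Multiplicative.ofAdd 1), ⟨?_, ?_, ?_, ?_, ?_, ?_⟩, ?_⟩
  · rw [← map_mul, ← map_mul, ← map_mul, ← map_mul]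
    congr 1
    exact Prod.ext hb rfl
  · rw [ec, ← map_mul, rac, map_mul]
  · rw [ex, ← map_mul, rad, map_mul, map_pow]
  · rw [ee', ← map_mul, rea, map_mul, map_pow]
  · intro i
    have := congrArg (H_left G) (rrule i)
    simp only [map_mul, map_inv, map_pow, Few.map_pos] at this
    rw [ec, ee', eet, ex]
    exact this
  · rw [etw]
    exact hfP
  · intro h
    rw [etw] at h
    have h1 := h 1
    rw [mul_one] at h1
    exact hfR h1

/-- A model of the relations in which `a` has infinite order. -/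
theorem model6_a (q : ℕ) (hq : 1 ≤ q) {m : ℕ} (hm : 1 ≤ m) (T : Fin m → List Bool × List Bool)
    (hT : ∀ i, (T i).1 ≠ [] ∧ (T i).2 ≠ []) (w0 : List Bool) :
    ∃ (M : Type) (_ : Group M) (a x y : M), Rel6 q T w0 a x y ∧ ∀ n : ℤ, a ^ n = 1 → n = 0 := by
  obtain ⟨K, G, _, _, x, y, κ, hb, hκ, iK, a, χ, hjK, hiK, hχK, hχa, rac, rad, rea, rrule, hPR,
    hinj, hχpw⟩ := exists_bar q hq hm T hT
  have h6 : hh x y ^ 6 = 1 := by
    rw [← hκ, ← map_pow, ← ofAdd_nsmul]
    have : (6 • (1 : Zc)) = 0 := by decide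
    rw [this, ofAdd_zero, map_one]
  have h25 : hh x y ^ 25 = hh x y := by
    rw [show 25 = 6 * 4 + 1 by norm_num, pow_add, pow_mul, h6, one_pow, one_mul, pow_one]
  have eet : et (iK x) (iK y) = iK (hh x y) := by
    rw [et, ← P1_hh, ← map_pow, h25]
  have ett : tt (iK x) (iK y) = 1 := by
    rw [tt, ← P1_hh, ← map_pow, h6, map_one]
  refine ⟨G, inferInstance, a, iK x, iK y, ⟨?_, ?_, ?_, ?_, ?_, ?_⟩, ?_⟩
  · rw [← map_mul, ← map_mul, hb, map_mul, map_mul]
  · rw [← P1_cc]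
    exact rac
  · exact rad
  · rw [← P1_ee]
    exact rea
  · intro i
    rw [← P1_cc, ← P1_ee, eet]
    exact rrule i
  · rw [tw6, ett]
    simp
  · intro n hn
    have h5 : a ^ n.natAbs = 1 := by
      rcases Int.natAbs_eq n with h | h
      · rw [h, zpow_natCast] at hn
        exact hn
      · rw [h, zpow_neg, inv_eq_one, zpow_natCast] at hn
        exact hn
    exact Int.natAbs_eq_zero.1 (hinj _ h5)

end Pool.Agent.H832.Tor
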