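import Pool.Agent.H832.Tor.M2
import Pool.Agent.H832.Tor.J6
import Pool.Agent.H832.Few.P3

set_option autoImplicit false

noncomputable section

namespace Pool.Agent.H832.Tor

open Pool.Agent.H832.Few (fl hh cc ee ThueEq P1_hh P1_cc P1_ee P3_Rep P3_pos P3_mul
  P3_inv P3_const)

/-- The `m + 5` relators, evaluated at elements `a, x, y` of a group. -/
def relA6 (q : ℕ) {m : ℕ} (T : Fin m → List Bool × List Bool) (w0 : List Bool) {M : Type} [Group M]
    (a x y : M) : Fin (m + 5) → M :=
  Fin.append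
    (fun i : Fin m => (cc q x y)⁻¹ *
      (x ^ ((i : ℕ) + 1) * Few.pos a (et x y) (fl (T i).1) * ee x y ^ ((i : ℕ) + 1)) * cc q x y *
      (x ^ ((i : ℕ) + 1 + (m + 1)) * Few.pos a (et x y) (fl (T i).2) * ee x y ^ ((i : ℕ) + 1))⁻¹)
    ![x * y * x * (y * x * y)⁻¹,
      a * cc q x y * (cc q x y * a)⁻¹,
      a * x * (x ^ (m + 1) * a)⁻¹,
      ee x y * a * (a * ee x y ^ (m + 1))⁻¹,
      tw6 w0 a x y]

/-- The relators of the presentation with the generators `a, x, y` (numbered `0, 1, 2`). -/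
def relsA6 (q : ℕ) {m : ℕ} (T : Fin m → List Bool × List Bool) (w0 : List Bool) :
    Fin (m + 5) → FreeGroup (Fin 3) :=
  relA6 q T w0 (FreeGroup.of 0) (FreeGroup.of 1) (FreeGroup.of 2)

theorem P6_et {M N : Type} [Group M] [Group N] (f : M →* N) (x y : M) :
    f (et x y) = et (f x) (f y) := by
  simp only [et, map_pow, P1_hh]

theorem P6_tt {M N : Type} [Group M] [Group N] (f : M →* N) (x y : M) :
    f (tt x y) = tt (f x) (f y) := by
  simp only [tt, map_pow, P1_hh]

theorem P6_qq {M N : Type} [Group M] [Group N] (f : M →* N) (w : List Bool) (a x y : M) :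
    f (qq w a x y) = qq w (f a) (f x) (f y) := by
  simp only [qq, map_mul, Few.map_pos, P6_et]

theorem P6_tw {M N : Type} [Group M] [Group N] (f : M →* N) (r : List Bool) (a x y : M) :
    f (tw6 r a x y) = tw6 r (f a) (f x) (f y) := by
  simp only [tw6, map_mul, map_inv, P6_qq, P6_tt]

theorem P6_relA (q : ℕ) {m : ℕ} (T : Fin m → List Bool × List Bool) (w0 : List Bool) {M N : Type}
    [Group M] [Group N] (f : M →* N) (a x y : M) (k : Fin (m + 5)) :
    f (relA6 q T w0 a x y k) = relA6 q T w0 (f a) (f x) (f y) k := by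
  unfold relA6
  refine Fin.addCases (fun i => ?_) (fun j => ?_) k
  · rw [Fin.append_left, Fin.append_left]
    simp only [map_mul, map_pow, map_inv, Few.map_pos, P6_et, P1_cc, P1_ee]
  · rw [Fin.append_right, Fin.append_right]
    fin_cases j
    · change f (x * y * x * (y * x * y)⁻¹) = f x * f y * f x * (f y * f x * f y)⁻¹
      simp only [map_mul, map_inv]
    · change f (a * cc q x y * (cc q x y * a)⁻¹) =
        f a * cc q (f x) (f y) * (cc q (f x) (f y) * f a)⁻¹
      simp only [map_mul, map_inv, P1_cc]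
    · change f (a * x * (x ^ (m + 1) * a)⁻¹) = f a * f x * (f x ^ (m + 1) * f a)⁻¹
      simp only [map_mul, map_inv, map_pow]
    · change f (ee x y * a * (a * ee x y ^ (m + 1))⁻¹) =
        ee (f x) (f y) * f a * (f a * ee (f x) (f y) ^ (m + 1))⁻¹
      simp only [map_mul, map_inv, map_pow, P1_ee]
    · change f (tw6 w0 a x y) = tw6 w0 (f a) (f x) (f y)
      rw [P6_tw]

theorem rel_of_relA6 (q : ℕ) {m : ℕ} (T : Fin m → List Bool × List Bool) (w0 : List Bool) {M : Type}
    [Group M] (a x y : M) (h : ∀ k, relA6 q T w0 a x y k = 1) : Rel6 q T w0 a x y := by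
  unfold relA6 at h
  have h1 := fun i : Fin m => h (Fin.castAdd 5 i)
  have h2 := fun j : Fin 5 => h (Fin.natAdd m j)
  simp only [Fin.append_left] at h1
  simp only [Fin.append_right] at h2
  exact ⟨mul_inv_eq_one.1 (h2 0), mul_inv_eq_one.1 (h2 1), mul_inv_eq_one.1 (h2 2),
    mul_inv_eq_one.1 (h2 3), fun i => mul_inv_eq_one.1 (h1 i), h2 4⟩

theorem relA6_of_rel (q : ℕ) {m : ℕ} (T : Fin m → List Bool × List Bool) (w0 : List Bool) {M : Type}
    [Group M] (a x y : M) (h : Rel6 q T w0 a x y) : ∀ k, relA6 q T w0 a x y k = 1 := by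
  intro k
  unfold relA6
  refine Fin.addCases (fun i => ?_) (fun j => ?_) k
  · rw [Fin.append_left]
    exact mul_inv_eq_one.2 (h.rule i)
  · rw [Fin.append_right]
    fin_cases j
    · exact mul_inv_eq_one.2 h.braid
    · exact mul_inv_eq_one.2 h.ac
    · exact mul_inv_eq_one.2 h.ad
    · exact mul_inv_eq_one.2 h.ea
    · exact h.test

/-- The word problem for the group with `3` generators and `m + 5` relators. -/
theorem wp6_iff (q : ℕ) (hq : 1 ≤ q) {m : ℕ} (hm : 1 ≤ m) (T : Fin m → List Bool × List Bool)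
    (hT : ∀ i, (T i).1 ≠ [] ∧ (T i).2 ≠ []) (w0 r : List Bool) :
    tw6 r (FreeGroup.of 0) (FreeGroup.of 1) (FreeGroup.of (2 : Fin 3)) ∈
      Subgroup.normalClosure (Set.range (relsA6 q T w0)) ↔ ThueEq T r w0 := by
  constructor
  · intro h
    by_contra hr
    obtain ⟨M, _, a, x, y, hrel, hne⟩ := model6 q hq hm T hT w0 r hr
    have e0 : FreeGroup.lift ![a, x, y] (FreeGroup.of 0) = a := FreeGroup.lift_apply_of
    have e1 : FreeGroup.lift ![a, x, y] (FreeGroup.of 1) = x := FreeGroup.lift_apply_of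
    have e2 : FreeGroup.lift ![a, x, y] (FreeGroup.of 2) = y := FreeGroup.lift_apply_of
    have h1 : Subgroup.normalClosure (Set.range (relsA6 q T w0)) ≤
        (FreeGroup.lift ![a, x, y]).ker := by
      apply Subgroup.normalClosure_le_normal
      rintro _ ⟨k, rfl⟩
      rw [SetLike.mem_coe, MonoidHom.mem_ker]
      unfold relsA6
      rw [P6_relA, e0, e1, e2]
      exact relA6_of_rel q T w0 a x y hrel k
    have h2 := h1 h
    rw [MonoidHom.mem_ker, P6_tw, e0, e1, e2] at h2
    exact hne h2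
  · intro hr
    have h1 : Rel6 q T w0
        (QuotientGroup.mk' (Subgroup.normalClosure (Set.range (relsA6 q T w0))) (FreeGroup.of 0))
        (QuotientGroup.mk' (Subgroup.normalClosure (Set.range (relsA6 q T w0))) (FreeGroup.of 1))
        (QuotientGroup.mk' (Subgroup.normalClosure (Set.range (relsA6 q T w0)))
          (FreeGroup.of 2)) := by
      apply rel_of_relA6
      intro k
      rw [← P6_relA]
      exact (QuotientGroup.eq_one_iff _).2 (Subgroup.subset_normalClosure ⟨k, rfl⟩)
    have h2 := complete6 h1 hr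
    have h3 : QuotientGroup.mk' (Subgroup.normalClosure (Set.range (relsA6 q T w0)))
        (tw6 r (FreeGroup.of 0) (FreeGroup.of 1) (FreeGroup.of (2 : Fin 3))) = 1 := by
      rw [P6_tw]
      exact h2
    exact (QuotientGroup.eq_one_iff _).1 h3

theorem P6_rep {n : ℕ} (a x y : FreeGroup (Fin n)) : P3_Rep fun r => tw6 r a x y := by
  have h1 : P3_Rep fun r => qq r a x y := P3_mul (P3_pos a (et x y)) (P3_const a)
  have h2 : P3_Rep fun r => (qq r a x y)⁻¹ * tt x y * qq r a x y :=
    P3_mul (P3_mul (P3_inv h1) (P3_const _)) h1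
  exact P3_mul (P3_mul (P3_const _) h2) (P3_inv (P3_mul h2 (P3_const _)))

/-- Computable test words. -/
theorem exists_tw6List : ∃ f : List Bool → List (Fin 3 × Bool),
    Computable f ∧ ∀ r, FreeGroup.mk (f r) =
      tw6 r (FreeGroup.of 0) (FreeGroup.of 1) (FreeGroup.of (2 : Fin 3)) := by
  obtain ⟨f, hf, hf'⟩ := P6_rep (FreeGroup.of (0 : Fin 3)) (FreeGroup.of 1) (FreeGroup.of 2)
  exact ⟨f, hf.to_comp, hf'⟩

end Pool.Agent.H832.Tor
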