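import Pool.Agent.H832.Tor.P6
import Pool.Agent.H832.Few.T1

set_option autoImplicit false

/-!
# The same group with `2` generators and `m + 4` relators

With `c = y⁴ x y⁻⁴` and `z = c y c a` one has `y = z c z⁻¹`, `x = y⁻⁴ c y⁴`, `a = (c y c)⁻¹ z`, and
the relation `a c = c a` follows from the braid relation.
-/

noncomputable section

namespace Pool.Agent.H832.Tor

open Pool.Agent.H832.Few (fl hh cc ee ThueEq T1_delta)

/-- The element `y` in terms of `z` and `c`. -/
def ya {M : Type} [Group M] (z c : M) : M := z * c * z⁻¹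

/-- The element `x` in terms of `z` and `c`. -/
def xa {M : Type} [Group M] (z c : M) : M := (ya z c ^ 4)⁻¹ * c * ya z c ^ 4

/-- The element `a` in terms of `z` and `c`. -/
def aa {M : Type} [Group M] (z c : M) : M := (c * ya z c * c)⁻¹ * z

theorem T7_ya {M N : Type} [Group M] [Group N] (f : M →* N) (z c : M) :
    f (ya z c) = ya (f z) (f c) := by
  simp only [ya, map_mul, map_inv]

theorem T7_xa {M N : Type} [Group M] [Group N] (f : M →* N) (z c : M) :
    f (xa z c) = xa (f z) (f c) := by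
  simp only [xa, map_mul, map_inv, map_pow, T7_ya]

theorem T7_aa {M N : Type} [Group M] [Group N] (f : M →* N) (z c : M) :
    f (aa z c) = aa (f z) (f c) := by
  simp only [aa, map_mul, map_inv, T7_ya]

theorem T7_braid {M : Type} [Group M] {x y c : M} (hx : x = (y ^ 4)⁻¹ * c * y ^ 4)
    (hb : x * y * x = y * x * y) : c * y * c = y * c * y := by
  have h1 : y ^ 4 * (x * y * x) * (y ^ 4)⁻¹ = c * y * c := by
    rw [hx]
    have h2 : y ^ 4 * y * (y ^ 4)⁻¹ = y := by group
    calc y ^ 4 * ((y ^ 4)⁻¹ * c * y ^ 4 * y * ((y ^ 4)⁻¹ * c * y ^ 4)) * (y ^ 4)⁻¹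
        = c * (y ^ 4 * y * (y ^ 4)⁻¹) * c := by group
      _ = c * y * c := by rw [h2]
  have h3 : y ^ 4 * (y * x * y) * (y ^ 4)⁻¹ = y * c * y := by
    rw [hx]
    group
  rw [← h1, hb, h3]

theorem T7_cc {M : Type} [Group M] (z c : M) : cc 1 (xa z c) (ya z c) = c := by
  unfold cc xa
  group

/-- The relation `a c = c a` is a consequence of the braid relation. -/
theorem T7_ac {M : Type} [Group M] {z c : M}
    (hb : xa z c * ya z c * xa z c = ya z c * xa z c * ya z c) :
    aa z c * cc 1 (xa z c) (ya z c) = cc 1 (xa z c) (ya z c) * aa z c := by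
  have h0 := T7_braid (y := ya z c) (c := c) rfl hb
  rw [T7_cc]
  have h1 := T1_delta h0
  have h2 : z * c = ya z c * z := by simp [ya]
  have h3 : (c * ya z c * c) * (aa z c * c) = (c * ya z c * c) * (c * aa z c) := by
    calc (c * ya z c * c) * (aa z c * c) = z * c := by simp only [aa]; group
      _ = ya z c * z := h2
      _ = ya z c * ((c * ya z c * c) * aa z c) := by
          congr 1
          simp only [aa]
          rw [mul_inv_cancel_left]
      _ = (ya z c * (c * ya z c * c)) * aa z c := by rw [← mul_assoc]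
      _ = (c * ya z c * c * c) * aa z c := by rw [h1]
      _ = (c * ya z c * c) * (c * aa z c) := by simp only [mul_assoc]
  exact mul_left_cancel h3

/-- The elements `a, x, y` are recovered from `c` and `z = c y c a`. -/
theorem T7_recover {M : Type} [Group M] {a x y : M} (hb : x * y * x = y * x * y)
    (hac : a * cc 1 x y = cc 1 x y * a) :
    ya (cc 1 x y * y * cc 1 x y * a) (cc 1 x y) = y ∧
    xa (cc 1 x y * y * cc 1 x y * a) (cc 1 x y) = x ∧
    aa (cc 1 x y * y * cc 1 x y * a) (cc 1 x y) = a := by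
  have hx : x = (y ^ 4)⁻¹ * cc 1 x y * y ^ 4 := by
    unfold cc
    group
  have hb' := T7_braid hx hb
  have h1 : ya (cc 1 x y * y * cc 1 x y * a) (cc 1 x y) = y := by
    generalize cc 1 x y = c at *
    unfold ya
    rw [mul_inv_eq_iff_eq_mul]
    calc c * y * c * a * c = c * y * c * (a * c) := by simp only [mul_assoc]
      _ = c * y * c * (c * a) := by rw [hac]
      _ = (c * y * c * c) * a := by simp only [mul_assoc]
      _ = y * (c * y * c) * a := by rw [T1_delta hb']
      _ = y * (c * y * c * a) := by simp only [mul_assoc]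
  refine ⟨h1, ?_, ?_⟩
  · unfold xa
    rw [h1]
    exact hx.symm
  · unfold aa
    rw [h1, inv_mul_cancel_left]

/-- The relators of the presentation with the generators `z, c` (numbered `0, 1`). -/
def relsT7 {m : ℕ} (T : Fin m → List Bool × List Bool) (w0 : List Bool) :
    Fin (m + 4) → FreeGroup (Fin 2) := fun k =>
  relA6 1 T w0 (aa (FreeGroup.of 0) (FreeGroup.of 1)) (xa (FreeGroup.of 0) (FreeGroup.of 1))
    (ya (FreeGroup.of 0) (FreeGroup.of 1)) ((Fin.natAdd m (1 : Fin 5)).succAbove k)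

theorem T7_all {m : ℕ} (T : Fin m → List Bool × List Bool) (w0 : List Bool) {M : Type} [Group M]
    (z c : M) (h : ∀ k : Fin (m + 4),
      relA6 1 T w0 (aa z c) (xa z c) (ya z c) ((Fin.natAdd m (1 : Fin 5)).succAbove k) = 1) :
    ∀ k, relA6 1 T w0 (aa z c) (xa z c) (ya z c) k = 1 := by
  have hne : ∀ k : Fin (m + 5), k ≠ Fin.natAdd m (1 : Fin 5) →
      relA6 1 T w0 (aa z c) (xa z c) (ya z c) k = 1 := by
    intro k hk
    obtain ⟨j, rfl⟩ := Fin.exists_succAbove_eq hk
    exact h j
  intro k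
  by_cases hk : k = Fin.natAdd m (1 : Fin 5)
  · subst hk
    have h0 : relA6 1 T w0 (aa z c) (xa z c) (ya z c) (Fin.natAdd m (0 : Fin 5)) = 1 := by
      apply hne
      intro h1
      have h2 := congrArg Fin.val h1
      simp at h2
    unfold relA6 at h0 ⊢
    rw [Fin.append_right] at h0 ⊢
    exact mul_inv_eq_one.2 (T7_ac (mul_inv_eq_one.1 h0))
  · exact hne k hk

/-- The word problem for the group with `2` generators and `m + 4` relators. -/
theorem wp7_iff {m : ℕ} (hm : 1 ≤ m) (T : Fin m → List Bool × List Bool)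
    (hT : ∀ i, (T i).1 ≠ [] ∧ (T i).2 ≠ []) (w0 r : List Bool) :
    tw6 r (aa (FreeGroup.of 0) (FreeGroup.of 1)) (xa (FreeGroup.of 0) (FreeGroup.of 1))
      (ya (FreeGroup.of 0) (FreeGroup.of (1 : Fin 2))) ∈
      Subgroup.normalClosure (Set.range (relsT7 T w0)) ↔ ThueEq T r w0 := by
  constructor
  · intro h
    by_contra hr
    obtain ⟨M, _, a, x, y, hrel, hne⟩ := model6 1 le_rfl hm T hT w0 r hr
    obtain ⟨hy, hx, ha⟩ := T7_recover hrel.braid hrel.ac
    have e0 : FreeGroup.lift ![cc 1 x y * y * cc 1 x y * a, cc 1 x y] (FreeGroup.of 0) =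
        cc 1 x y * y * cc 1 x y * a := FreeGroup.lift_apply_of
    have e1 : FreeGroup.lift ![cc 1 x y * y * cc 1 x y * a, cc 1 x y] (FreeGroup.of 1) =
        cc 1 x y := FreeGroup.lift_apply_of
    have h1 : Subgroup.normalClosure (Set.range (relsT7 T w0)) ≤
        (FreeGroup.lift ![cc 1 x y * y * cc 1 x y * a, cc 1 x y]).ker := by
      apply Subgroup.normalClosure_le_normal
      rintro _ ⟨k, rfl⟩
      rw [SetLike.mem_coe, MonoidHom.mem_ker]
      unfold relsT7
      rw [P6_relA, T7_aa, T7_xa, T7_ya, e0, e1, hy, hx, ha]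
      exact relA6_of_rel 1 T w0 a x y hrel _
    have h2 := h1 h
    rw [MonoidHom.mem_ker, P6_tw, T7_aa, T7_xa, T7_ya, e0, e1, hy, hx, ha] at h2
    exact hne h2
  · intro hr
    let N := Subgroup.normalClosure (Set.range (relsT7 T w0))
    let φ : FreeGroup (Fin 2) →* FreeGroup (Fin 2) ⧸ N := QuotientGroup.mk' N
    have hA : ∀ k : Fin (m + 4), relA6 1 T w0
        (aa (φ (FreeGroup.of 0)) (φ (FreeGroup.of 1))) (xa (φ (FreeGroup.of 0)) (φ (FreeGroup.of 1)))
        (ya (φ (FreeGroup.of 0)) (φ (FreeGroup.of 1)))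
        ((Fin.natAdd m (1 : Fin 5)).succAbove k) = 1 := by
      intro k
      rw [← T7_aa, ← T7_xa, ← T7_ya, ← P6_relA]
      exact (QuotientGroup.eq_one_iff _).2 (Subgroup.subset_normalClosure ⟨k, rfl⟩)
    have h2 := complete6 (rel_of_relA6 1 T w0 _ _ _ (T7_all T w0 _ _ hA)) hr
    have h3 : φ (tw6 r (aa (FreeGroup.of 0) (FreeGroup.of 1))
        (xa (FreeGroup.of 0) (FreeGroup.of 1))
        (ya (FreeGroup.of 0) (FreeGroup.of (1 : Fin 2)))) = 1 := by
      rw [P6_tw, T7_aa, T7_xa, T7_ya]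
      exact h2
    exact (QuotientGroup.eq_one_iff _).1 h3

/-- Computable test words. -/
theorem exists_tw7List : ∃ f : List Bool → List (Fin 2 × Bool),
    Computable f ∧ ∀ r, FreeGroup.mk (f r) =
      tw6 r (aa (FreeGroup.of 0) (FreeGroup.of 1)) (xa (FreeGroup.of 0) (FreeGroup.of 1))
        (ya (FreeGroup.of 0) (FreeGroup.of (1 : Fin 2))) := by
  obtain ⟨f, hf, hf'⟩ := P6_rep (aa (FreeGroup.of 0) (FreeGroup.of 1))
    (xa (FreeGroup.of 0) (FreeGroup.of 1)) (ya (FreeGroup.of 0) (FreeGroup.of (1 : Fin 2)))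
  exact ⟨f, hf.to_comp, hf'⟩

end Pool.Agent.H832.Tor
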